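import Pool.Agent.Lib.MP_ab8df0_nt.A.N1.Def

/-! Small primes. -/

namespace Pool.Agent.Lib.MP_ab8df0_nt.A.N1

open Pool.Agent.Lib.MP_ab8df0_nt.A

theorem a0 : CovA fl 30 1373170 m 2 ρ 0 (0 + 60) := covA _ _ _ _ _ _ _ _
  [(0, []),
  (0, [⟨[2, 6, 6], 1, 3, [5, 5, 3], [2, 2, -4, 0, -4, -6, -6, 1, 0, 1, 1, 1]⟩, ⟨[5, 6, 2, 3, 2, 0, 6, 4, 5, 4, 0, 1], 1, 8, [1, 5, 5, 4, 4, 0, 2, 0, 0, 0, 5, 2], []⟩]),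
  (0, [⟨[8], 1, 1, [1], [6, -2, 0, 0, 0, 0, 6, 0, 0, 0, 0, -1]⟩, ⟨[10], 1, 1, [1], [0, 0, -4, -4, 0, 0, 0, 1, 1]⟩, ⟨[6], 1, 1, [1], [-2, 0, 0, -4, 0, 6, 0, 0, 1, 0, -1]⟩, ⟨[2], 1, 1, [1], [2, 0, -4, 0, 0, -6, 0, 1, 0, 0, 1]⟩, ⟨[7], 1, 1, [1], [0, 2, 4, 0, 0, 0, -6, -1, 0, 0, 0, 1]⟩, ⟨[4, 0, 0, 0, 0, 7, 0, 0, 0, 0], 1, 6, [7, 0, 0, 0, 0, 3], []⟩]),
  (0, [⟨[10, 9, 2], 1, 3, [10, 6, 4], [-6, 0, -4, 0, 2, 0, 0, 1, 0, -6, 0, 0, 0, 0, 1]⟩, ⟨[10, 4, 10, 12, 11, 3, 8, 5, 2, 11, 0, 11], 1, 6, [1, 10, 3, 12, 9, 7, 1, 5, 10, 0, 7, 6], []⟩]),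
  (0, [⟨[5], 1, 1, [1], [2, 0, 4, 0, 0, -6, 0, -1, 0, 0, 1]⟩, ⟨[6, 4], 1, 2, [12, 11], [0, 0, -8, 6, 0, 0, 0, 2, -7, 0, 0, 0, 0, 1]⟩, ⟨[15, 2, 0, 2], 1, 4, [16, 2, 8, 5], [0, 2, 4, 4, 6, -4, 12, -1, -1, -7, 1, -2, 0, 0, 1]⟩, ⟨[4, 11, 9, 12], 1, 4, [0, 11, 8], [10, 0, 0, 0, 0, 6, 0, 0, 0, 0, -1]⟩, ⟨[15, 5, 0, 11], 1, 4, [4, 4, 10, 13], [2, 0, 8, 6, 0, 8, 0, -2, -7, 0, -1, 0, 0, 1]⟩]),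
  (0, [⟨[16, 14, 15], 1, 3, [5, 13, 3], [8, -2, -6, 4, 0, -6, 6, 7, -1, 0, 1, -1, -1]⟩, ⟨[10, 18, 3, 12, 2, 1], 1, 5, [12, 11, 11, 9, 8, 11], []⟩, ⟨[10, 16, 16, 11, 9, 3], 1, 5, [9, 1, 2, 1, 4, 3], []⟩]),
  (0, [⟨[21], 1, 1, [1], [6, 0, 4, 4, 0, 0, 0, -1, -1]⟩, ⟨[18, 8], 1, 2, [19, 1], [0, 0, -2, -4, 0, 0, 0, 13, 1, 0, 0, 0, -2]⟩, ⟨[7, 8, 19, 2], 1, 4, [0, 21, 22], [10, 0, 0, 0, 0, -4]⟩, ⟨[21, 18, 20, 16], 1, 4, [19, 15, 12, 22], [-6, 2, 2, 4, 6, 0, 12, 5, 6, -7, 0, -2, -1, -1, 1]⟩, ⟨[21, 11, 20, 22], 1, 4, [20, 21, 21], [4, 2, -4, 12, -8, 6, -6, 1, 4, -5, -1, 1, 0, -1, 1]⟩]),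
  (0, [⟨[9], 1, 1, [1], [0, 4, 4, 0, 0, 0, 6, -1, 0, 0, 0, -1]⟩, ⟨[6, 16], 1, 2, [10, 6], [0, 4, -4, 0, 4, 0, 6, 1, 0, -1, 0, -1]⟩, ⟨[6, 4], 1, 2, [3, 13], [0, 4, -4, 0, 6, 0, 6, 1, 0, -7, 0, -1, 0, 0, 1]⟩, ⟨[5, 0, 0, 0, 0, 1, 0, 0, 0, 0], 1, 5, [2, 12, 1, 0, 17, 18, 23, 22, 0, 9], []⟩]),
  (0, [⟨[24], 1, 1, [1], [0, -2, 2, 0, 0, 0, 6, 5, 0, 0, 0, -1, -1]⟩, ⟨[6], 1, 1, [1], [-2, 0, 0, -2, 0, 6, 0, 0, 6, 0, -1, 0, 0, -1]⟩, ⟨[3], 1, 1, [1], [2, 0, 0, -4, 0, -6, 0, 0, 1, 0, 1]⟩, ⟨[12], 1, 1, [1], [6, 0, 4, 0, 0, 0, 0, -1]⟩, ⟨[17], 1, 1, [1], [0, 0, -4, 0, 6, 0, 0, 1, 0, -7, 0, 0, 0, 0, 1]⟩, ⟨[8, 0, 0, 0, 0], 1, 5, [0, 7], []⟩, ⟨[3, 0, 0, 0, 0], 1, 5, [0, 29], []⟩]),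
  (0, [⟨[21, 15, 23], 1, 3, [23, 2, 36], [-2, -6, 0, 10, -6, 2, 0, 0, -8, 7, 0, 0, 0, 1, -1]⟩, ⟨[28, 17, 3, 7, 26, 25, 28, 12, 6, 35, 11, 14], 1, 4, [12, 4, 25, 6, 6, 14, 4, 7, 4, 4, 25, 28], []⟩]),
  (0, [⟨[37, 17], 1, 2, [31, 6], [0, 0, -6, 0, 2, 0, 0, 7, 0, -6, 0, 0, -1, 0, 1]⟩, ⟨[1, 26], 1, 2, [25, 17], [-2, 0, -2, 4, -4, 6, 0, 6, -1, 1, -1, 0, -1]⟩, ⟨[16, 19], 1, 2, [4, 19], [0, 2, -4, -2, 6, 0, -6, 1, 6, -7, 0, 1, 0, -1, 1]⟩, ⟨[10, 6], 1, 2, [40, 14], [2, 0, -4, 4, 8, -2, 0, 1, -1, 5, 0, 0, 0, 0, -1]⟩, ⟨[18, 14], 1, 2, [23, 26], [2, 4, 6, 0, 0, -6, 6, -7, 0, 0, 1, -1, 1]⟩, ⟨[37, 0, 0, 0, 0], 1, 4, [0, 0, 30], []⟩]),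
  (0, [⟨[40], 1, 1, [1], [2, 0, 4, -6, 0, -6, 0, -1, 7, 0, 1, 0, 0, -1]⟩, ⟨[30], 1, 1, [1], [0, 4, -4, 0, 0, 0, 6, 1, 0, 0, 0, -1]⟩, ⟨[27], 1, 1, [1], [-2, 0, 4, -4, 0, 6, 0, -1, 1, 0, -1]⟩, ⟨[5, 27, 34, 3], 1, 4, [0, 12, 4], []⟩, ⟨[34, 4, 3, 13], 1, 4, [0, 22, 5], []⟩, ⟨[39, 11, 2, 16], 1, 4, [0, 28, 34], []⟩]),
  (0, [⟨[45], 1, 1, [1], [6, 0, 0, 4, 0, 0, 0, 0, -1]⟩, ⟨[16, 20], 1, 2, [28, 16], [2, 0, 8, 0, 0, -6, 0, -13, 0, 0, 1, 0, 2]⟩, ⟨[26, 36, 22, 41], 1, 4, [30, 6, 43, 29], []⟩, ⟨[26, 2, 22, 33], 1, 4, [33, 19, 9, 34], []⟩, ⟨[31, 8, 43, 2], 1, 4, [0, 10, 5], []⟩]),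
  (7, []),
  (0, [⟨[15], 1, 1, [1], [-2, 2, -4, 0, 0, 6, -6, 1, 0, 0, -1, 1]⟩, ⟨[16, 40], 1, 2, [12, 10], [-2, 2, 0, 0, 6, 2, -6, 0, 0, -7, 0, 1, 0, 0, 1]⟩, ⟨[9, 30, 48, 48], 1, 4, [42, 35, 27, 51], []⟩, ⟨[9, 27, 48, 18], 1, 4, [15, 29, 4, 24], []⟩, ⟨[43, 17, 40, 38], 1, 4, [0, 35, 33], []⟩]),
  (0, [⟨[6], 1, 1, [1], [-2, 0, 4, 0, -6, 6, 0, -1, 0, 7, -1, 0, 0, 0, -1]⟩, ⟨[23, 21], 1, 2, [40, 58], [0, -2, -4, 4, 8, 0, 6, 1, -1, 5, 0, -1, 0, 0, -1]⟩, ⟨[23, 32], 1, 2, [29, 24], [-6, 0, 0, -2, -4, 0, 0, 0, 6, 1, 0, 0, 0, -1]⟩, ⟨[20, 0, 0, 0, 0, 18, 0, 0, 0, 0], 1, 4, [31, 34, 39, 11, 0, 57, 35, 46, 42], []⟩])] (by decide +kernel)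

theorem a1 : CovA fl 30 1373170 m 2 ρ 60 (60 + 140) := covA _ _ _ _ _ _ _ _
  [(0, [⟨[4, 0, 0, 0, 0, 0, 0, 0, 0, 0, 6, 0, 0, 0, 0], 1, 4, [0, 0, 35, 0, 0, 0, 0, 31, 0, 0, 0, 0, 23], []⟩]),
  (0, [⟨[6, 44, 35], 1, 3, [60, 20, 45], [-6, 6, -6, -2, 2, 0, 0, 7, 6, -6, 0, 0, -1, -1, 1]⟩, ⟨[44, 57, 40, 18, 35, 47, 46, 42, 1, 1, 4, 32], 1, 4, [43, 20, 52, 0, 2, 4, 61, 12, 49, 32, 6, 14], []⟩]),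
  (0, [⟨[16, 0, 0, 0, 0], 1, 4, [0, 0, 69], []⟩, ⟨[53, 0, 0, 0, 0, 61, 0, 0, 0, 0], 1, 4, [0, 0, 48, 0, 0, 0, 0, 21], []⟩]),
  (0, [⟨[16, 54, 56], 1, 3, [2, 55, 45], [-2, -4, -4, 8, -6, 6, 8, 1, 5, 7, -1, -1, 0, -1, -1]⟩, ⟨[18, 67, 12, 9, 55, 30, 49, 57, 3, 17, 22, 17], 1, 4, [71, 36, 69, 70, 57, 40, 47, 69, 16, 39, 34, 42], []⟩]),
  (7, []),
  (0, [⟨[45, 26, 74], 1, 3, [0, 76, 47], [-2, -4, 8, -6, 4, 6, -6, 5, 7, -1, -1, 1, -1, -1]⟩, ⟨[29, 24, 3, 12, 18, 71], 1, 4, [27, 30, 68, 25, 49, 69], []⟩, ⟨[29, 40, 0, 50, 64, 13], 1, 4, [22, 51, 49, 39, 29, 45], []⟩]),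
  (0, [⟨[78], 1, 1, [1], [0, 0, 4, -2, 0, 0, 0, -1, 6, 0, 0, 0, 0, -1]⟩, ⟨[62, 25], 1, 2, [72, 54], [0, -2, 6, -4, 2, 0, 6, -7, 1, 12, 0, -1, 1, 0, -2]⟩, ⟨[57, 79, 19, 74], 1, 4, [17, 41, 54, 35], []⟩, ⟨[57, 60, 19, 67], 1, 4, [61, 27, 67, 30], []⟩, ⟨[39, 42, 58, 5], 1, 4, [0, 20, 4], []⟩]),
  (0, [⟨[43], 1, 1, [1], [2, 0, 2, 0, 0, -6, 0, 5, 0, 0, 1, 0, -1]⟩, ⟨[20, 15], 1, 2, [73, 14], [0, -2, 8, 2, 0, 0, 6, 5, 5, 0, 0, -1, -1, -1]⟩, ⟨[20, 31], 1, 2, [45, 66], [6, 0, 0, 6, -4, 0, 0, 0, -7, 1, 0, 0, 0, 1]⟩, ⟨[54, 0, 0, 0, 0, 72, 0, 0, 0, 0], 1, 4, [30, 2, 9, 48, 0, 45, 84, 43, 29], []⟩]),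
  (7, []),
  (0, [⟨[54, 8, 68], 1, 3, [40, 51, 6], [-2, -4, 6, 2, -6, 2, 12, -7, -6, 7, 0, -2, 1, 1, -1]⟩, ⟨[61, 70, 17, 38, 3, 58, 53, 0, 96, 64, 24, 29], 1, 4, [12, 14, 42, 96, 39, 33, 40, 35, 67, 35, 61, 3], []⟩]),
  (0, [⟨[23, 0, 0, 0, 0], 1, 4, [0, 0, 42], []⟩, ⟨[13, 0, 0, 0, 0, 84, 0, 0, 0, 0], 1, 4, [0, 0, 44, 0, 0, 0, 0, 1], []⟩]),
  (0, [⟨[83, 14, 95], 1, 3, [66, 74, 11], [-2, 6, -2, 8, -6, 2, 0, 6, 5, 7, 0, 0, -1, -1, -1]⟩, ⟨[62, 64, 20, 78, 64, 95, 37, 98, 13, 35, 25, 8], 1, 4, [54, 71, 11, 70, 19, 63, 86, 42, 23, 71, 84, 22], []⟩]),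
  (0, [⟨[95], 1, 1, [1], [-6, 0, -2, 0, 0, -4, 0, 6, 0, 0, 1, 0, -1]⟩, ⟨[79, 56], 1, 2, [2, 84], [0, 4, 4, 2, 0, 0, 6, -1, 12, 0, 0, -1, 0, -2]⟩, ⟨[72, 0, 51, 51], 1, 4, [2, 99, 61, 18], []⟩, ⟨[72, 37, 51, 0], 1, 4, [86, 98, 70, 55], []⟩, ⟨[22, 16, 70, 12], 1, 4, [0, 71, 104], []⟩]),
  (0, [⟨[67], 1, 1, [1], [2, 0, -4, -4, 0, -6, 0, 1, 1, 0, 1]⟩, ⟨[39], 1, 1, [1], [-2, -2, 4, 2, 0, 6, 6, -1, -6, 0, -1, -1, 0, 1]⟩, ⟨[78], 1, 1, [1], [0, 0, 4, -6, 0, 0, 0, -1, 7, 0, 0, 0, 0, -1]⟩, ⟨[20, 14], 1, 2, [4, 15], [-8, 0, -4, 0, -2, 2, 0, 1, 0, 6, 0, 0, 0, 0, -1]⟩, ⟨[5, 63], 1, 2, [6, 5], [-2, -2, -2, -4, 6, -12, 6, -5, 1, -7, 2, -1, 1, 0, 1]⟩, ⟨[89, 16], 1, 2, [10, 26], [-6, 0, -8, 0, -4, 0, 0, 2, 0, 1]⟩, ⟨[89, 26], 1, 2, [86, 94], [-6, 0,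 8, -2, 4, 0, 0, 5, 6, -1, 0, 0, -1, -1]⟩, ⟨[5, 7], 1, 2, [8, 60], [-2, 2, 8, -4, 0, 2, -6, 5, 1, 0, 0, 1, -1]⟩, ⟨[20, 17], 1, 2, [3, 83], [-8, 0, 4, 6, 0, 2, 0, -1, -7, 0, 0, 0, 0, 1]⟩]),
  (0, [⟨[92], 1, 1, [1], [0, -2, -4, -4, 0, 0, 6, 1, 1, 0, 0, -1]⟩, ⟨[73, 104], 1, 2, [23, 93], [0, -6, -4, 4, 0, 4, 0, 1, -1, 0, -1]⟩, ⟨[105, 108, 11, 21], 1, 3, [76, 104, 0, 23], []⟩, ⟨[95, 9, 39, 102], 1, 3, [22, 35, 56, 71], []⟩, ⟨[95, 12, 39, 20], 1, 3, [63, 57, 53, 5], []⟩]),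
  (7, []),
  (11, []),
  (0, [⟨[30], 1, 1, [1], [6, 0, 6, 0, 0, 0, 0, -7, 0, 0, 0, 0, 1]⟩, ⟨[15], 1, 1, [1], [0, -2, 4, 0, 6, 0, 6, -1, 0, -7, 0, -1, 0, 0, 1]⟩, ⟨[104], 1, 1, [1], [0, 0, 4, 0, 6, 0, 0, -1, 0, -7, 0, 0, 0, 0, 1]⟩, ⟨[48, 54, 29, 112], 1, 3, [113, 8, 18], []⟩, ⟨[6, 51, 116, 97], 1, 3, [60, 1, 17], []⟩, ⟨[67, 102, 106, 23], 1, 3, [104, 64, 11], []⟩]),
  (0, [⟨[13, 0, 0, 0, 0], 1, 3, [0, 0, 0, 55], []⟩, ⟨[40, 0, 0, 0, 0, 124, 0, 0, 0, 0], 1, 3, [0, 0, 0, 105, 0, 0, 0, 0, 79], []⟩]),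
  (7, []),
  (0, [⟨[27], 1, 1, [1], [2, 0, 2, 2, 0, -6, 0, -6, -6, 0, 1, 0, 1, 1]⟩, ⟨[134, 102], 1, 2, [36, 96], [-2, -6, 2, -4, 6, 6, 0, 5, 1, -7, -1, 0, -1, 0, 1]⟩, ⟨[128, 128, 17, 38], 1, 3, [23, 73, 75, 34], []⟩, ⟨[128, 114, 17, 134], 1, 3, [44, 133, 106, 67], []⟩, ⟨[119, 45, 93, 110], 1, 3, [66, 123, 70], []⟩]),
  (0, [⟨[46, 30, 113], 1, 3, [81, 110, 74], []⟩, ⟨[108, 55, 83, 99, 102, 135], 1, 3, [116, 127, 17, 126, 120, 4], []⟩, ⟨[108, 74, 118, 48, 45, 30], 1, 3, [63, 76, 101, 22, 126, 129], []⟩]),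
  (11, []),
  (0, [⟨[96], 1, 1, [1], [0, 6, -4, 0, 0, 0, 0, 1]⟩, ⟨[22, 115], 1, 2, [28, 63], [-2, -2, 2, 4, -4, 6, 6, 5, -1, 1, -1, -1, -1]⟩, ⟨[22, 87], 1, 2, [76, 113], [2, 4, 2, 2, 0, -6, 6, -6, -6, 0, 1, -1, 1, 1]⟩, ⟨[25, 0, 0, 0, 0, 30, 0, 0, 0, 0], 1, 3, [146, 54, 91, 32, 44, 15, 9, 50, 97, 85], []⟩]),
  (0, [⟨[31, 80, 117], 1, 3, [78, 49, 58], []⟩, ⟨[97, 10, 89], 1, 3, [20, 25, 88], []⟩, ⟨[17, 137, 30], 1, 3, [72, 116, 11], []⟩, ⟨[21, 39, 109], 1, 3, [9, 22, 45], []⟩, ⟨[136, 36, 108], 1, 3, [123, 90, 100], []⟩]),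
  (0, [⟨[26], 1, 1, [1], [-6, 0, 0, 0, -4, 0, 0, 0, 0, 1]⟩, ⟨[149], 1, 1, [1], [-6, 0, 4, 0, 0, -4, 0, -1, 0, 0, 1]⟩, ⟨[146], 1, 1, [1], [4, 0, -4, -4, 0, 6, 0, 1, 1, 0, -1]⟩, ⟨[143, 41, 93, 8], 1, 3, [52, 36, 148], []⟩, ⟨[51, 8, 109, 131], 1, 3, [17, 106, 141], []⟩, ⟨[117, 75, 36, 11], 1, 3, [82, 139, 146], []⟩]),
  (7, []),
  (0, [⟨[119, 103, 162], 1, 3, [62, 129, 158], []⟩, ⟨[89, 12, 52, 12, 160, 136, 107, 40, 77, 88, 59, 1], 1, 3, [43, 27, 121, 122, 30, 146, 29, 2, 60, 143, 108, 6], []⟩]),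
  (0, [⟨[86], 1, 1, [1], [2, 0, -2, -2, 0, -6, 0, 6, 6, 0, 1, 0, -1, -1]⟩, ⟨[76, 26], 1, 2, [14, 76], [4, -2, -6, 4, -4, 6, 6, 7, -1, 1, -1, -1, -1]⟩, ⟨[34, 47, 119, 81], 1, 3, [32, 140, 112], []⟩, ⟨[69, 165, 98, 119], 1, 3, [36, 70, 114, 78], []⟩, ⟨[69, 141, 98, 22], 1, 3, [77, 6, 82, 22], []⟩]),
  (13, []),
  (0, [⟨[150], 1, 1, [1], [-6, 0, -4, 0, 0, -4, 0, 1, 0, 0, 1]⟩, ⟨[77, 58], 1, 2, [139, 31], [-4, 0, 0, 0, -4, 8, 0, 7, 0, 1, -1, 0, -1]⟩, ⟨[126, 64, 38, 172], 1, 3, [133, 119, 131, 131], []⟩, ⟨[73, 57, 163, 23], 1, 3, [45, 156, 0, 116], []⟩, ⟨[126, 77, 38, 116], 1, 3, [62, 40, 53], []⟩]),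
  (0, [⟨[106], 1, 1, [1], [6, -2, 4, 0, 0, 0, 6, -1, 0, 0, 0, -1]⟩, ⟨[41, 147], 1, 2, [6, 157], [6, -2, -6, 0, -4, 0, -12, 7, 0, 1, 0, 2, -1]⟩, ⟨[41, 105], 1, 2, [70, 118], [-4, 0, -2, -4, 2, 12, 0, 6, 1, -6, -2, 0, -1, 0, 1]⟩, ⟨[11, 0, 0, 0, 0, 104, 0, 0, 0, 0], 1, 3, [54, 47, 141, 64, 96, 58, 5, 142, 91, 27], []⟩]),
  (0, [⟨[4, 0, 0, 0, 0, 0, 0, 0, 0, 0, 6, 0, 0, 0, 0], 1, 3, [0, 0, 0, 50, 0, 0, 0, 0, 84, 0, 0, 0, 0, 164], []⟩]),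
  (11, []),
  (0, [⟨[131, 0, 0, 0, 0], 1, 3, [0, 0, 0, 164], []⟩, ⟨[51, 0, 0, 0, 0, 66, 0, 0, 0, 0], 1, 3, [0, 0, 0, 108, 0, 0, 0, 0, 70], []⟩]),
  (0, [⟨[134, 182, 63], 1, 3, [144, 104, 146], []⟩, ⟨[144, 104, 154, 57, 67, 121, 84, 11, 187, 175, 95, 130], 1, 3, [184, 164, 157, 47, 82, 187, 3, 62, 143, 171, 107, 142], []⟩]),
  (0, [⟨[117], 1, 1, [1], [0, 2, 4, -4, 0, 0, -6, -1, 1, 0, 0, 1]⟩, ⟨[13, 161], 1, 2, [52, 178], [0, 2, -8, -2, 4, 0, -6, -5, -12, -1, 0, 1, 1, 2]⟩, ⟨[43, 194, 101, 80], 1, 3, [142, 105, 22], []⟩, ⟨[28, 170, 44, 140], 1, 3, [133, 173, 119, 17], []⟩, ⟨[28, 150, 44, 93], 1, 3, [196, 8, 128, 2], []⟩]),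
  (0, [⟨[35, 37, 169], 1, 3, [193, 174, 177], []⟩, ⟨[168, 8, 196, 69, 189, 160], 1, 3, [180, 125, 40, 182, 68, 14], []⟩, ⟨[168, 93, 195, 179, 163, 69], 1, 3, [189, 163, 68, 165, 18, 160], []⟩])] (by decide +kernel)

theorem a2 : CovA fl 30 1373170 m 2 ρ 200 (200 + 200) := covA _ _ _ _ _ _ _ _
  [(7, []),
  (11, []),
  (0, [⟨[4, 0, 0, 0, 0, 0, 0, 0, 0, 0, 6, 0, 0, 0, 0], 1, 3, [0, 0, 0, 125, 0, 0, 0, 0, 55, 0, 0, 0, 0, 122], []⟩]),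
  (7, []),
  (13, []),
  (0, [⟨[34], 1, 1, [1], [2, 2, 2, 0, 0, -6, -6, 5, 0, 0, 1, 1, -1]⟩, ⟨[88], 1, 1, [1], [0, 2, -4, 8, 0, 0, -6, 1, 5, 0, 0, 1, 0, -1]⟩, ⟨[21], 1, 1, [1], [0, 0, -2, -6, 0, 0, 0, -5, 7, 0, 0, 0, 1, -1]⟩, ⟨[198, 105, 5, 202], 1, 3, [107, 175, 0, 118], []⟩, ⟨[103, 167, 182, 189], 1, 3, [161, 90, 0, 148], []⟩, ⟨[70, 16, 61, 135], 1, 3, [155, 131, 0, 180], []⟩]),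
  (0, [⟨[214], 1, 1, [1], [0, -2, 4, 0, -4, 0, 6, -1, 0, 1, 0, -1]⟩, ⟨[66, 143], 1, 2, [112, 154], [8, -2, -6, 0, -4, -6, 6, 7, 0, 1, 1, -1, -1]⟩, ⟨[184, 64, 10, 140], 1, 3, [195, 42, 10, 173], []⟩, ⟨[184, 67, 10, 171], 1, 3, [58, 175, 50, 117], []⟩, ⟨[41, 154, 58, 13], 1, 3, [191, 176, 165], []⟩]),
  (0, [⟨[82], 1, 1, [1], [2, 2, -2, 0, 0, -6, -6, 6, 0, 0, 1, 1, -1]⟩, ⟨[100], 1, 1, [1], [6, 2, -2, 0, 0, 0, -6, 6, 0, 0, 0, 1, -1]⟩, ⟨[214], 1, 1, [1], [0, 0, 4, 0, 8, 0, 0, -1, 0, 5, 0, 0, 0, 0, -1]⟩, ⟨[4, 85], 1, 2, [128, 129], [-2, 6, 0, 0, 2, 6, 0, 7, 0, 12, -1, 0, -1, 0, -2]⟩, ⟨[76, 44], 1, 2, [164, 55], [6, 0, 0, 2, 10, 0, 0, 7, -6, -8, 0, 0, -1, 1, 1]⟩, ⟨[4, 159], 1, 2, [162, 214], [-6, 6, 0, 0, -6, 0, 0, 7, 0, 7, 0, 0, -1, 0,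 -1]⟩, ⟨[146, 1], 1, 2, [110, 9], [0, 0, 10, 4, -4, 0, 0, -1, -1, 1]⟩, ⟨[146, 146], 1, 2, [200, 60], [-2, -2, -2, 0, -4, 6, -12, 13, 0, 1, -1, 2, -2]⟩, ⟨[76, 85], 1, 2, [136, 180], [0, -4, -4, 6, 0, 0, -6, 1, 11, 0, 0, 1, 0, -2]⟩]),
  (0, [⟨[49], 1, 1, [1], [6, 2, 0, -4, 0, 0, -6, 0, 1, 0, 0, 1]⟩, ⟨[2, 98], 1, 2, [53, 75], [2, 2, 6, -8, 4, -6, -6, -7, -5, -1, 1, 1, 1, 1]⟩, ⟨[229, 31, 176, 34], 1, 3, [158, 65, 115, 40], []⟩, ⟨[85, 16, 162, 184], 1, 3, [212, 166, 0, 135], []⟩, ⟨[229, 165, 176, 101], 1, 3, [205, 199, 118, 58], []⟩]),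
  (0, [⟨[142], 1, 1, [1], [0, -2, 2, -2, 0, 0, 6, 5, 6, 0, 0, -1, -1, -1]⟩, ⟨[151, 118], 1, 2, [232, 150], [-2, -2, 0, -2, 8, 2, 6, 0, 6, 5, 0, -1, 0, -1, -1]⟩, ⟨[151, 218], 1, 2, [177, 51], [6, -2, -4, -4, 6, 0, 6, -6, -6, -7, 0, -1, 1, 1, 1]⟩, ⟨[212, 0, 0, 0, 0, 236, 0, 0, 0, 0], 1, 3, [23, 168, 189, 76, 225, 167, 10, 9, 70, 102], []⟩]),
  (0, [⟨[96, 211, 124], 1, 3, [23, 51, 173], []⟩, ⟨[159, 41, 198], 1, 3, [136, 99, 78], []⟩, ⟨[9, 162, 115], 1, 3, [85, 62, 38], []⟩, ⟨[60, 193, 184], 1, 3, [165, 178, 109], []⟩, ⟨[158, 116, 102], 1, 3, [73, 92, 84], []⟩]),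
  (13, []),
  (0, [⟨[92, 0, 0, 0, 0], 1, 3, [0, 0, 0, 248], []⟩, ⟨[120, 0, 0, 0, 0, 165, 0, 0, 0, 0], 1, 3, [0, 0, 0, 188, 0, 0, 0, 0, 29], []⟩]),
  (11, []),
  (0, [⟨[42], 1, 1, [1], [-6, -2, -2, 0, 0, 0, 6, 6, 0, 0, 0, -1, -1]⟩, ⟨[98, 229], 1, 2, [104, 191], [-6, 0, 6, 4, 2, 0, 0, -7, -1, -6, 0, 0, 1, 0, 1]⟩, ⟨[60, 185, 35, 215], 1, 3, [94, 252, 12], []⟩, ⟨[162, 21, 207, 120], 1, 3, [69, 32, 235, 18], []⟩, ⟨[162, 62, 207, 165], 1, 3, [252, 126, 188, 6], []⟩]),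
  (7, []),
  (0, [⟨[36], 1, 1, [1], [0, 0, 4, 8, 0, 0, 0, -1, 5, 0, 0, 0, 0, -1]⟩, ⟨[163, 102], 1, 2, [168, 105], [6, 2, 6, 6, 6, 0, -6, -7, -7, 11, 0, 1, 1, 1, -2]⟩, ⟨[165, 158, 19, 227], 1, 3, [227, 262, 0, 14], []⟩, ⟨[257, 12, 153, 224], 1, 3, [169, 109, 190, 182], []⟩, ⟨[257, 45, 153, 200], 1, 3, [146, 206, 238, 62], []⟩]),
  (0, [⟨[186], 1, 1, [1], [6, 0, 2, 0, 6, 0, 0, -6, 0, -7, 0, 0, 1, 0, 1]⟩, ⟨[105, 25], 1, 2, [112, 217], [0, 0, 8, -4, 12, -4, 0, 5, 1, 4, 1, 0, -1, 0, -1]⟩, ⟨[105, 58], 1, 2, [63, 239], [6, 0, 8, 4, 2, 0, 0, 5, -1, 12, 0, 0, -1, 0, -2]⟩, ⟨[175, 0, 0, 0, 0, 212, 0, 0, 0, 0], 1, 3, [250, 220, 156, 65, 124, 179, 147, 136, 147, 51], []⟩]),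
  (0, [⟨[4, 0, 0, 0, 0, 0, 0, 0, 0, 0, 6, 0, 0, 0, 0], 1, 3, [0, 0, 0, 220, 0, 0, 0, 0, 146, 0, 0, 0, 0, 122], []⟩]),
  (0, [⟨[93], 1, 1, [1], [-2, 0, 4, 0, -4, 6, 0, -1, 0, 1, -1]⟩, ⟨[131], 1, 1, [1], [0, -2, -4, -6, 0, 0, 6, 1, 7, 0, 0, -1, 0, -1]⟩, ⟨[170], 1, 1, [1], [-6, 0, 0, 0, 4, -4, 0, 0, 0, -1, 1]⟩, ⟨[108, 41, 13, 146], 1, 3, [81, 50, 79], []⟩, ⟨[123, 149, 185, 107], 1, 3, [112, 248, 218], []⟩, ⟨[34, 51, 215, 184], 1, 3, [193, 214, 88], []⟩]),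
  (0, [⟨[70, 0, 0, 0, 0], 1, 3, [0, 0, 0, 61], []⟩, ⟨[16, 0, 0, 0, 0, 217, 0, 0, 0, 0], 1, 3, [0, 0, 0, 264, 0, 0, 0, 0, 15], []⟩]),
  (0, [⟨[260], 1, 1, [1], [0, 0, 4, 0, 2, 0, 0, -1, 0, 12, 0, 0, 0, 0, -2]⟩, ⟨[78], 1, 1, [1], [4, 0, 4, 0, -4, 6, 0, -1, 0, 1, -1]⟩, ⟨[22], 1, 1, [1], [6, 2, 0, 0, 0, 0, -6, 0, 0, 0, 0, 1]⟩, ⟨[68, 106, 82, 261], 1, 3, [205, 228, 0, 109], []⟩, ⟨[212, 39, 142, 205], 1, 3, [226, 119, 0, 135], []⟩, ⟨[46, 281, 37, 23], 1, 3, [26, 85, 0, 39], []⟩]),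
  (7, []),
  (17, []),
  (0, [⟨[76], 1, 1, [1], [0, 0, -4, 8, 0, 0, 0, 1, 5, 0, 0, 0, 0, -1]⟩, ⟨[175, 229], 1, 2, [249, 255], [-2, 2, 6, -4, 0, -12, -6, 0, 1, 0, 2, 1]⟩, ⟨[140, 228, 67, 72], 1, 3, [186, 71, 139, 71], []⟩, ⟨[269, 231, 84, 217], 1, 3, [263, 69, 0, 8], []⟩, ⟨[140, 292, 67, 285], 1, 3, [175, 68, 89, 277], []⟩]),
  (13, []),
  (7, []),
  (0, [⟨[173], 1, 1, [1], [2, 2, 0, -4, 0, -6, -6, 0, 1, 0, 1, 1]⟩, ⟨[222], 1, 1, [1], [-4, 0, -4, 0, 0, 8, 0, 1, 0, 0, -1]⟩, ⟨[161], 1, 1, [1], [6, 0, 4, -4, 0, 0, 0, -1, 1]⟩, ⟨[120, 125, 143, 85], 1, 3, [152, 28, 263], []⟩, ⟨[218, 145, 157, 134], 1, 3, [158, 130, 218], []⟩, ⟨[117, 77, 174, 146], 1, 3, [12, 185, 254], []⟩]),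
  (0, [⟨[249, 34], 1, 2, [235, 224], [-4, -2, -4, 0, 6, -10, -12, 1, 0, -7, 2, 2, 0, 0, 1]⟩, ⟨[292, 213], 1, 2, [166, 289], [6, -2, 0, 10, 4, 0, 6, 0, -1, -1, 0, -1]⟩, ⟨[256, 204], 1, 2, [91, 179], [2, 2, -6, 4, -2, -6, -6, 7, -1, 13, 1, 1, -1, 0, -2]⟩, ⟨[197, 291], 1, 2, [67, 100], [4, -2, 4, 2, 4, 6, 6, -1, 12, -1, -1, -1, 0, -2]⟩, ⟨[250, 191], 1, 2, [63, 141], [4, 2, -4, 12, 4, 6, -6, 1, 4, -1, -1, 1, 0, -1]⟩, ⟨[251, 0, 0, 0, 0], 1, 3, [0, 0, 0, 134], []⟩]),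
  (0, [⟨[194, 141, 177], 1, 3, [227, 76, 24], []⟩, ⟨[171, 271, 102, 270, 230, 42, 216, 206, 60, 160, 143, 136], 1, 3, [113, 85, 227, 78, 266, 142, 109, 248, 15, 125, 22, 116], []⟩]),
  (0, [⟨[273], 1, 1, [1], [4, 0, -4, 0, 0, 6, 0, 1, 0, 0, -1]⟩, ⟨[110, 149], 1, 2, [188, 123], [2, 0, -2, -2, 6, -6, 0, 6, -5, -7, 1, 0, -1, 1, 1]⟩, ⟨[112, 228, 283, 44], 1, 3, [179, 52, 257], []⟩, ⟨[263, 283, 293, 87], 1, 3, [283, 316, 171, 64], []⟩, ⟨[263, 257, 293, 81], 1, 3, [157, 205, 143, 99], []⟩]),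
  (11, []),
  (17, []),
  (7, []),
  (0, [⟨[4, 0, 0, 0, 0, 0, 0, 0, 0, 0, 6, 0, 0, 0, 0], 1, 3, [0, 0, 0, 32, 0, 0, 0, 0, 107, 0, 0, 0, 0, 275], []⟩]),
  (0, [⟨[104, 318, 278], 1, 3, [124, 102, 262], []⟩, ⟨[324, 124, 25, 172, 63, 51, 118, 252, 188, 159, 245, 59], 1, 3, [64, 159, 112, 21, 301, 320, 10, 226, 163, 116, 57, 120], []⟩]),
  (11, []),
  (7, []),
  (0, [⟨[290], 1, 1, [1], [0, 0, 4, 6, -4, 0, 0, -1, -7, 1, 0, 0, 0, 1]⟩, ⟨[317, 40], 1, 2, [272, 264], [-6, 2, -4, 4, 0, 14, -6, -6, 6, 0, -2, 1, 1, -1]⟩, ⟨[141, 73, 225, 293], 1, 3, [10, 9, 330, 231], []⟩, ⟨[141, 115, 225, 14], 1, 3, [103, 325, 9, 304], []⟩, ⟨[86, 242, 221, 57], 1, 3, [141, 154, 92], []⟩]),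
  (0, [⟨[56, 210, 191], 1, 3, [250, 189, 81], []⟩, ⟨[5, 92, 13, 220, 180, 67], 1, 3, [253, 137, 72, 342, 103, 92], []⟩, ⟨[5, 151, 310, 48, 287, 91], 1, 3, [220, 215, 38, 171, 20, 55], []⟩]),
  (0, [⟨[167], 1, 1, [1], [-8, 0, 4, 0, 0, 2, 0, -1]⟩, ⟨[153, 133], 1, 2, [4, 199], [-2, -4, -6, 10, 2, 6, -6, 7, -8, 12, -1, 1, -1, 1, -2]⟩, ⟨[242, 138, 208, 124], 1, 3, [337, 187, 328, 263], []⟩, ⟨[349, 19, 351, 186], 1, 3, [106, 26, 0, 39], []⟩, ⟨[242, 90, 208, 96], 1, 3, [284, 279, 265, 186], []⟩]),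
  (0, [⟨[43], 1, 1, [1], [0, -6, 4, 0, 6, 0, 0, -1, 0, -7, 0, 0, 0, 0, 1]⟩, ⟨[305, 109], 1, 2, [100, 288], [2, 2, -2, 4, 2, -6, -6, 6, 6, 12, 1, 1, -1, -1, -2]⟩, ⟨[305, 207], 1, 2, [67, 204], [-2, 6, -6, 4, 6, 6, 0, 7, 6, -7, -1, 0, -1, -1, 1]⟩, ⟨[148, 0, 0, 0, 0, 268, 0, 0, 0, 0], 1, 3, [244, 130, 181, 228, 192, 267, 161, 260, 271, 142], []⟩]),
  (19, []),
  (0, [⟨[85, 140, 83], 1, 3, [151, 173, 239], []⟩, ⟨[354, 43, 365, 95, 118, 41, 194, 52, 19, 162, 311, 284], 1, 3, [81, 154, 283, 193, 231, 203, 344, 280, 329, 105, 198, 174], []⟩]),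
  (7, []),
  (0, [⟨[307, 134, 248], 1, 3, [273, 370, 233], []⟩, ⟨[147, 95, 214, 128, 277, 215, 266, 253, 114, 93, 280, 125], 1, 3, [215, 273, 101, 262, 165, 230, 194, 129, 300, 110, 196, 238], []⟩]),
  (13, []),
  (0, [⟨[245, 3, 301], 1, 3, [242, 321, 352], []⟩, ⟨[236, 58, 202, 304, 299, 34], 1, 3, [221, 153, 235, 146, 241, 8], []⟩, ⟨[236, 298, 378, 354, 37, 44], 1, 3, [365, 332, 299, 129, 187, 333], []⟩]),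
  (0, [⟨[227], 1, 1, [1], [4, 2, -4, 4, 0, 6, -6, 1, -1, 0, -1, 1]⟩, ⟨[253, 97], 1, 2, [6, 67], [-4, 6, 0, 0, -12, -6, 0, 7, 0, 14, 1, 0, -1, 0, -2]⟩, ⟨[47, 120, 176, 156], 1, 3, [299, 30, 0, 117], []⟩, ⟨[335, 357, 173, 133], 1, 3, [295, 376, 291, 73], []⟩, ⟨[335, 55, 173, 153], 1, 3, [313, 180, 74, 265], []⟩]),
  (0, [⟨[188], 1, 1, [1], [0, 2, 2, 0, 0, 0, -6, 5, 0, 0, 0, 1, -1]⟩, ⟨[55, 380], 1, 2, [367, 168], [0, 2, -2, 0, -2, 0, -6, -5, 0, 13, 0, 1, 1, 0, -2]⟩, ⟨[55, 210], 1, 2, [351, 30], [2, 0, 4, 0, 8, 8, 0, -1, 0, 5, -1, 0, 0, 0, -1]⟩, ⟨[346, 0, 0, 0, 0, 24, 0, 0, 0, 0], 1, 3, [69, 124, 34, 225, 124, 143, 123, 357, 26, 30], []⟩]),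
  (17, []),
  (0, [⟨[202], 1, 1, [1], [-2, 2, 0, -4, 6, 6, -6, 0, 1, -7, -1, 1, 0, 0, 1]⟩, ⟨[347], 1, 1, [1], [-6, 0, 0, 4, 0, -4, 0, 0, -1, 0, 1]⟩, ⟨[208], 1, 1, [1], [0, 4, -2, 0, 0, 0, 6, -5, 0, 0, 0, -1, 1]⟩, ⟨[371, 106, 87, 195], 1, 3, [209, 200, 171], []⟩, ⟨[316, 284, 9, 189], 1, 3, [300, 371, 99], []⟩, ⟨[368, 342, 279, 50], 1, 3, [253, 192, 167], []⟩])] (by decide +kernel)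

theorem a3 : CovA fl 30 1373170 m 2 ρ 400 (400 + 300) := covA _ _ _ _ _ _ _ _
  [(0, [⟨[391, 0, 0, 0, 0], 1, 3, [0, 0, 0, 203], []⟩, ⟨[241, 0, 0, 0, 0, 16, 0, 0, 0, 0], 1, 3, [0, 0, 0, 380, 0, 0, 0, 0, 94], []⟩]),
  (13, []),
  (11, []),
  (0, [⟨[45, 111, 117], 1, 3, [392, 153, 111], []⟩, ⟨[20, 229, 142, 226, 102, 369], 1, 3, [289, 89, 313, 403, 237, 373], []⟩, ⟨[20, 267, 113, 37, 221, 332], 1, 3, [382, 352, 191, 329, 298, 292], []⟩]),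
  (7, []),
  (0, [⟨[67], 1, 1, [1], [2, -2, 0, -4, 0, -6, 6, 0, 1, 0, 1, -1]⟩, ⟨[120, 83], 1, 2, [295, 109], [6, -2, -6, 6, -4, 0, 6, 7, 11, 1, 0, -1, -1, -2]⟩, ⟨[120, 269], 1, 2, [99, 303], [-2, 0, -6, 6, -4, -12, 0, 0, -7, 1, 2, 0, 0, 1]⟩, ⟨[387, 0, 0, 0, 0, 163, 0, 0, 0, 0], 1, 3, [293, 107, 394, 352, 410, 173, 39, 142, 200, 15], []⟩]),
  (0, [⟨[4, 0, 0, 0, 0, 0, 0, 0, 0, 0, 6, 0, 0, 0, 0], 1, 3, [0, 0, 0, 130, 0, 0, 0, 0, 336, 0, 0, 0, 0, 198], []⟩]),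
  (7, []),
  (0, [⟨[158, 0, 0, 0, 0], 1, 3, [0, 0, 0, 307], []⟩, ⟨[120, 0, 0, 0, 0, 279, 0, 0, 0, 0], 1, 3, [0, 0, 0, 203, 0, 0, 0, 0, 356], []⟩]),
  (0, [⟨[180], 1, 1, [1], [6, 0, 2, -4, 0, 0, 0, -6, 1, 0, 0, 0, 1]⟩, ⟨[103], 1, 1, [1], [-4, 0, -2, -6, 0, -6, 0, 6, 7, 0, 1, 0, -1, -1]⟩, ⟨[398], 1, 1, [1], [6, 0, 4, -2, 0, 0, 0, -1, 6, 0, 0, 0, 0, -1]⟩, ⟨[108, 165, 216, 330], 1, 3, [87, 169, 0, 148], []⟩, ⟨[153, 8, 74, 35], 1, 3, [55, 184, 0, 250], []⟩, ⟨[4, 77, 75, 253], 1, 3, [112, 424, 0, 35], []⟩]),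
  (19, []),
  (0, [⟨[211], 1, 1, [1], [-2, 0, 4, 0, 0, 6, 0, 6, 0, 0, -1, 0, -1]⟩, ⟨[131], 1, 1, [1], [2, 2, -4, 0, 0, -6, -6, 1, 0, 0, 1, 1]⟩, ⟨[147], 1, 1, [1], [0, 6, -4, 0, -4, 0, 0, 1, 0, 1]⟩, ⟨[341, 246], 1, 2, [195, 416], [-6, 0, -4, 6, 2, -4, 0, 1, 11, 12, 1, 0, 0, -2, -2]⟩, ⟨[399, 259], 1, 2, [247, 232], [-4, 0, 6, 2, 12, -6, 0, -7, -6, 4, 1, 0, 1, 1, -1]⟩, ⟨[257, 156], 1, 2, [88, 224], [2, 2, 2, 2, 0, -2, 12, 12, -6, 0, 0, -2, -2, 1]⟩, ⟨[341, 46], 1, 2, [26, 247], [2, -4, 2, 4, 2, -2, -6, 12, -1, -6, 0, 1, -2, 0, 1]⟩, ⟨[257, 72], 1, 2, [41, 133], [-6, -10, 2, 0, -6, -4, -6, 5, 0, 7, 1, 1, -1, 0, -1]⟩, ⟨[399, 49], 1, 2, [316, 229], [-2, 4, 4, 10, -8, 6, 6, -1, -1, -5, -1, -1, 0, 0, 1]⟩]),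
  (0, [⟨[307], 1, 1, [1], [-2, 0, 0, 6, 0, 2, 0, 0, -7, 0, 0, 0, 0, 1]⟩, ⟨[407, 288], 1, 2, [47, 335], [0, -2, 8, -6, -4, 0, 6, -13, 7, 1, 0, -1, 2, -1]⟩, ⟨[33, 291, 5, 110], 1, 3, [319, 438, 295, 57], []⟩, ⟨[33, 416, 5, 45], 1, 3, [64, 127, 212, 82], []⟩, ⟨[304, 102, 110, 136], 1, 3, [207, 119, 0, 33], []⟩]),
  (0, [⟨[384], 1, 1, [1], [0, 2, 2, -6, 0, 0, -6, 5, 7, 0, 0, 1, -1, -1]⟩, ⟨[265, 14], 1, 2, [138, 301], [4, 4, -2, 6, 2, 6, 6, -5, -7, -6, -1, -1, 1, 1, 1]⟩, ⟨[265, 51], 1, 2, [235, 26], [-4, 0, -4, -4, -2, -10, 0, 1, 1, 6, 2, 0, 0, 0, -1]⟩, ⟨[153, 0, 0, 0, 0, 97, 0, 0, 0, 0], 1, 3, [343, 214, 241, 257, 275, 339, 391, 371, 157, 326], []⟩]),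
  (11, []),
  (0, [⟨[337], 1, 1, [1], [0, 0, 6, -2, 0, 0, 0, -7, 6, 0, 0, 0, 1, -1]⟩, ⟨[43], 1, 1, [1], [-2, 0, 4, 4, 0, 6, 0, 6, -1, 0, -1, 0, -1]⟩, ⟨[428], 1, 1, [1], [0, 6, 4, 0, 0, 0, 0, -1]⟩, ⟨[16, 11, 436, 414], 1, 3, [309, 349, 80], []⟩, ⟨[155, 168, 73, 29], 1, 3, [149, 352, 23], []⟩, ⟨[94, 83, 224, 120], 1, 3, [71, 272, 422], []⟩]),
  (0, [⟨[210], 1, 1, [1], [-4, 0, 4, 0, 0, 8, 0, -1, 0, 0, -1]⟩, ⟨[293], 1, 1, [1], [0, 2, 4, 4, 6, 0, -6, -1, -1, -7, 0, 1, 0, 0, 1]⟩, ⟨[429], 1, 1, [1], [-6, 0, 0, -4, 0, -4, 0, 0, 1, 0, 1]⟩, ⟨[411], 1, 1, [1], [2, 2, -4, -4, 6, -6, -6, 1, 1, -7, 1, 1, 0, 0, 1]⟩, ⟨[40], 1, 1, [1], [-2, -2, 0, 4, 6, 6, 6, 0, -1, -7, -1, -1, 0, 0, 1]⟩, ⟨[386, 0, 0, 0, 0, 92, 0, 0, 0, 0], 1, 3, [0, 0, 0, 343, 0,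 0, 0, 0, 252], []⟩]),
  (0, [⟨[185, 225, 222], 1, 3, [75, 29, 143], []⟩, ⟨[20, 276, 266, 369, 152, 47, 288, 380, 126, 28, 32, 241], 1, 3, [310, 168, 456, 140, 49, 403, 204, 315, 163, 129, 95, 371], []⟩]),
  (0, [⟨[46], 1, 1, [1], [-2, 4, 2, 0, 0, 6, 6, -6, 0, 0, -1, -1, 1]⟩, ⟨[210, 368], 1, 2, [15, 439], [0, -2, 4, 0, 2, 0, 2, -1, 0, 12, 0, 0, 0, 0, -2]⟩, ⟨[265, 383, 310, 192], 1, 3, [192, 224, 106, 235], []⟩, ⟨[265, 309, 310, 374], 1, 3, [236, 194, 438, 169], []⟩, ⟨[140, 267, 219, 421], 1, 3, [409, 375, 463], []⟩]),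
  (7, []),
  (11, []),
  (0, [⟨[356], 1, 1, [1], [4, 2, 4, 0, 0, 6, -6, -1, 0, 0, -1, 1]⟩, ⟨[199, 385], 1, 2, [164, 350], [-2, 2, 4, 0, 0, -16, -6, -1, 0, 0, 3, 1]⟩, ⟨[199, 217], 1, 2, [241, 64], [-4, -2, -8, 6, 6, 8, 6, 2, -7, -7, -1, -1, 0, 1, 1]⟩, ⟨[342, 0, 0, 0, 0, 457, 0, 0, 0, 0], 1, 3, [170, 11, 347, 191, 46, 269, 66, 425, 232, 288], []⟩]),
  (13, []),
  (0, [⟨[433, 44, 281], 1, 3, [164, 105, 438], []⟩, ⟨[451, 133, 390, 262, 67, 76, 54, 321, 469, 329, 376, 206], 1, 3, [131, 410, 217, 408, 379, 416, 331, 423, 368, 169, 186, 23], []⟩]),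
  (0, [⟨[371, 153], 1, 2, [62, 73], [8, -6, 8, 0, 0, -2, 0, 5, 0, 0, 0, 0, -1]⟩, ⟨[378, 355], 1, 2, [53, 8], [0, -2, 8, -2, -4, 0, 6, 5, 13, 1, 0, -1, -1, -2]⟩, ⟨[135, 230], 1, 2, [370, 317], [2, 6, -2, 6, 6, -6, 0, 13, -7, -7, 1, 0, -2, 1, 1]⟩, ⟨[155, 12], 1, 2, [54, 482], [-6, -2, 4, 4, 2, -4, 6, 6, -1, 12, 1, -1, -1, 0, -2]⟩, ⟨[434, 232], 1, 2, [443, 102], [2, -2, 4, 2, 12, -2, 6, 6, -13, 4, 0, -1, -1, 2, -1]⟩, ⟨[435, 0, 0, 0, 0], 1, 3, [0, 0, 0, 215], []⟩]),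
  (17, []),
  (7, []),
  (0, [⟨[234], 1, 1, [1], [2, 4, -4, 4, 0, -6, 6, 1, -1, 0, 1, -1]⟩, ⟨[237], 1, 1, [1], [0, 0, 4, -2, 6, 0, 0, -1, 6, -7, 0, 0, 0, -1, 1]⟩, ⟨[458], 1, 1, [1], [0, 4, -4, 0, -4, 0, 6, 1, 0, 1, 0, -1]⟩, ⟨[218, 68], 1, 2, [81, 71], [-6, 12, -4, 4, 0, 0, -14, 1, -1, 0, 0, 2]⟩, ⟨[134, 21], 1, 2, [498, 309], [-2, 4, 2, -8, -8, 6, 6, 5, -5, -5, -1, -1, -1, 1, 1]⟩, ⟨[134, 244], 1, 2, [178, 473], [4, 2, -4, 8, 6, -8, -6, 1, 5, 11, 1, 1, 0, -1, -2]⟩, ⟨[315, 243], 1, 2, [189, 442], [-8, -4, 6, 0, -2, 2, -6, -7, 0, 6, 0, 1, 1, 0, -1]⟩, ⟨[315, 297], 1, 2, [383, 236], [-8, -6, -4, 6, 0, 2, 0, 1, -7, 0, 0, 0, 0, 1]⟩, ⟨[218, 194], 1, 2, [378, 135], [6, 2, -6, -4, 8, 4, -6, 7, 1, 5, -1, 1, -1, 0, -1]⟩]),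
  (0, [⟨[480], 1, 1, [1], [0, 0, 2, 4, 6, 0, 0, 5, -1, -7, 0, 0, -1, 0, 1]⟩, ⟨[172, 376], 1, 2, [214, 443], [-2, -8, -4, 4, 2, 6, 6, 1, -1, -6, -1, -1, 0, 0, 1]⟩, ⟨[93, 275, 457, 500], 1, 3, [293, 260, 99, 225], []⟩, ⟨[330, 95, 477, 23], 1, 3, [89, 18, 0, 389], []⟩, ⟨[93, 13, 457, 130], 1, 3, [207, 130, 420, 60], []⟩]),
  (0, [⟨[147], 1, 1, [1], [2, -2, 0, -2, 0, -6, 6, 0, 6, 0, 1, -1, 0, -1]⟩, ⟨[278, 481], 1, 2, [102, 80], [6, -4, 2, -4, 12, 0, -6, -6, 1, 4, 0, 1, 1, 0, -1]⟩, ⟨[278, 390], 1, 2, [130, 169], [2, -6, -2, -4, 4, 8, 0, -12, 1, -1, -1, 0, 2]⟩, ⟨[108, 0, 0, 0, 0, 138, 0, 0, 0, 0], 1, 3, [34, 377, 190, 292, 125, 494, 464, 191, 19, 251], []⟩]),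
  (7, []),
  (11, []),
  (0, [⟨[134, 88], 1, 2, [445, 428], [-4, 4, -2, -2, 8, 8, 6, -5, -12, 5, -1, -1, 1, 2, -1]⟩, ⟨[390, 116], 1, 2, [122, 465], [-2, -8, -4, 6, 2, 6, 2, 1, -7, -6, -1, 0, 0, 1, 1]⟩, ⟨[224, 81], 1, 2, [432, 163], [-2, -6, 2, -2, -6, 6, 0, 12, -5, 7, -1, 0, -2, 1, -1]⟩, ⟨[443, 295], 1, 2, [380, 280], [-2, 0, -8, 12, -4, 2, 0, -5, 4, 1, 0, 0, 1, -1]⟩, ⟨[372, 462], 1, 2, [184, 227], [-2, 0, -6, 0, 10, 10, 0, 7, 0, -8, -2, 0, -1, 0, 1]⟩, ⟨[19, 0, 0, 0, 0], 1, 3, [0, 0, 0, 167], []⟩]),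
  (0, [⟨[135, 182, 499], 1, 3, [44, 370, 401], []⟩, ⟨[399, 357, 194, 355, 252, 519, 355, 309, 185, 459, 288, 24], 1, 3, [130, 158, 383, 414, 127, 326, 343, 279, 170, 253, 268, 264], []⟩]),
  (17, []),
  (23, []),
  (13, []),
  (7, []),
  (0, [⟨[4, 0, 0, 0, 0, 0, 0, 0, 0, 0, 6, 0, 0, 0, 0], 1, 3, [0, 0, 0, 240, 0, 0, 0, 0, 223, 0, 0, 0, 0, 288], []⟩]),
  (0, [⟨[158, 366, 253], 1, 3, [45, 232, 408], []⟩, ⟨[180, 407, 43, 8, 206, 310, 510, 103, 380, 284, 171, 294], 1, 3, [233, 330, 160, 14, 488, 543, 119, 220, 274, 408, 506, 520], []⟩]),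
  (19, []),
  (7, []),
  (0, [⟨[242], 1, 1, [1], [0, -2, -4, 0, 2, 0, 6, 1, 0, -6, 0, -1, 0, 0, 1]⟩, ⟨[311, 187], 1, 2, [93, 139], [2, 2, 0, 4, 0, 12, -6, -7, -1, 0, -2, 1, 1]⟩, ⟨[197, 333, 303, 226], 1, 3, [245, 309, 527, 392], []⟩, ⟨[197, 453, 303, 144], 1, 3, [251, 409, 104, 335], []⟩, ⟨[443, 377, 478, 315], 1, 3, [502, 367, 514], []⟩]),
  (13, []),
  (0, [⟨[13], 1, 1, [1], [2, -2, 0, 4, 6, -6, 6, 0, -1, -7, 1, -1, 0, 0, 1]⟩, ⟨[355, 403], 1, 2, [40, 282], [6, -4, -2, 4, 0, 0, 12, 6, 6, 0, 0, -2, -1, -1]⟩, ⟨[87, 149, 359, 5], 1, 3, [444, 158, 368, 3], []⟩, ⟨[87, 477, 359, 155], 1, 3, [249, 3, 383, 49], []⟩, ⟨[152, 55, 394, 550], 1, 3, [2, 260, 0, 481], []⟩]),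
  (0, [⟨[78], 1, 1, [1], [0, 0, -6, -2, 0, 0, 0, 7, 6, 0, 0, 0, -1, -1]⟩, ⟨[548, 423], 1, 2, [476, 178], [-6, 0, 2, -2, -10, -4, 0, 5, 6, 8, 1, 0, -1, -1, -1]⟩, ⟨[548, 385], 1, 2, [285, 368], [-2, 0, 2, -4, 8, 2, 0, -6, 1, -13, 0, 0, 1, 0, 2]⟩, ⟨[548, 494], 1, 2, [264, 485], [0, 4, -2, 8, 2, 0, 6, 13, 5, 12, 0, -1, -2, -1, -2]⟩, ⟨[548, 343], 1, 2, [95, 308], [2, -10, -2, -4, 2, -6, 8, -5, 1, 12, 1, -1, 1, 0, -2]⟩, ⟨[548, 62], 1, 2, [533, 148], [2, -6, -2, 0, 6, -6, -4, -1, 0, -7, 1, 1, 0, 0, 1]⟩, ⟨[175, 34], 1, 2, [279, 84], [-2, -4, 4, 2, 6, 2, -6, 6, 5, 11, 0, 1, -1, -1, -2]⟩, ⟨[175, 457], 1, 2, [166, 511], [-4, -2, 8, 8, 2, 8, 6, 5, 5, -6, -1, -1, -1, -1, 1]⟩]),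
  (0, [⟨[469, 309, 0], 1, 3, [165, 535, 196], []⟩, ⟨[96, 207, 0], 1, 3, [147, 181, 61], []⟩, ⟨[44, 244, 0], 1, 3, [567, 343, 220], []⟩, ⟨[496, 169, 0], 1, 3, [474, 385, 185], []⟩, ⟨[37, 213, 0], 1, 3, [360, 269, 480], []⟩]),
  (0, [⟨[124, 359, 453], 1, 3, [234, 334, 32], []⟩, ⟨[335, 226, 267, 42, 110, 540, 492, 317, 244, 266, 421, 124], 1, 3, [220, 97, 236, 464, 116, 262, 309, 82, 540, 253, 266, 175], []⟩]),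
  (7, []),
  (11, []),
  (0, [⟨[178], 1, 1, [1], [-2, 0, 2, -2, 0, 6, 0, 5, 6, 0, -1, 0, -1, -1]⟩, ⟨[413, 227], 1, 2, [300, 393], [-2, -4, 4, -8, 0, -12, -6, 6, 2, 0, 2, 1, -1]⟩, ⟨[391, 144, 14, 409], 1, 3, [369, 128, 351], []⟩, ⟨[248, 474, 62, 418], 1, 3, [508, 114, 200, 553], []⟩, ⟨[248, 531, 62, 529], 1, 3, [453, 464, 193, 35], []⟩]),
  (19, []),
  (0, [⟨[357], 1, 1, [1], [2, 2, 2, -6, 0, -6, -6, -6, 7, 0, 1, 1, 1, -1]⟩, ⟨[358, 251], 1, 2, [54, 250], [-6, -8, 8, 6, -2, 0, 2, -2, -7, -12, 0, 0, 0, 1, 2]⟩, ⟨[517, 188, 562, 104], 1, 3, [409, 238, 518, 225], []⟩, ⟨[256, 411, 46, 236], 1, 3, [379, 217, 0, 205], []⟩, ⟨[517, 127, 562, 238], 1, 3, [384, 565, 112, 85], []⟩]),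
  (0, [⟨[100], 1, 1, [1], [-4, 2, 6, 0, 0, 8, -6, -7, 0, 0, -1, 1, 1]⟩, ⟨[183, 495], 1, 2, [211, 269], [6, 4, 2, 4, 6, 0, -12, 5, -1, -7, 0, 2, -1, 0, 1]⟩, ⟨[183, 4], 1, 2, [394, 402], [-2, -4, -8, -6, 2, 6, -6, 13, 7, -6, -1, 1, -2, -1, 1]⟩, ⟨[44, 0, 0, 0, 0, 115, 0, 0, 0, 0], 1, 3, [386, 275, 531, 508, 576, 330, 505, 32, 368, 598], []⟩]),
  (0, [⟨[582], 1, 1, [1], [0, 8, -4, 0, 0, 0, -6, 1, 0, 0, 0, 1]⟩, ⟨[206], 1, 1, [1], [6, 2, 0, 4, 0, 0, -6, 0, -1, 0, 0, 1]⟩, ⟨[594], 1, 1, [1], [6, -2, 0, -4, 0, 0, 6, 0, 1, 0, 0, -1]⟩, ⟨[44], 1, 1, [1], [0, 4, 4, -4, 0, 0, 6, -1, 1, 0, 0, -1]⟩, ⟨[377], 1, 1, [1], [0, 2, -4, -4, -4, 0, -6, 1, 1, 1, 0, 1]⟩, ⟨[11, 0, 0, 0, 0], 1, 3, [0, 0, 0, 216], []⟩, ⟨[575, 0, 0, 0, 0], 1, 3, [0, 0, 0, 186],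 []⟩]),
  (0, [⟨[576, 516, 323], 1, 3, [38, 268, 453], []⟩, ⟨[333, 119, 7, 210, 510, 25, 84, 252, 213, 490, 166, 284], 1, 3, [564, 202, 494, 313, 359, 351, 88, 121, 72, 315, 429, 75], []⟩]),
  (13, []),
  (0, [⟨[526, 4, 207], 1, 3, [412, 190, 83], []⟩, ⟨[606, 49, 507, 450, 240, 19, 454, 14, 524, 24, 57, 406], 1, 3, [53, 556, 411, 573, 167, 117, 483, 282, 360, 451, 8, 150], []⟩]),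
  (0, [⟨[45], 1, 1, [1], [-2, 0, 6, 0, 0, 2, 0, -7, 0, 0, 0, 0, 1]⟩, ⟨[379, 452], 1, 2, [180, 507], [0, -2, -2, 2, 4, 0, 6, 13, 12, -1, 0, -1, -2, -2]⟩, ⟨[120, 175, 20, 255], 1, 3, [450, 101, 472, 517], []⟩, ⟨[120, 224, 20, 527], 1, 3, [288, 127, 163, 426], []⟩, ⟨[574, 191, 443, 572], 1, 3, [139, 502, 132], []⟩]),
  (0, [⟨[88, 552, 257], 1, 3, [425, 101, 218], []⟩, ⟨[303, 37, 50, 171, 371, 294], 1, 3, [29, 295, 259, 563, 138, 609], []⟩, ⟨[303, 257, 589, 473, 64, 68], 1, 3, [357, 175, 499, 486, 37, 378], []⟩]),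
  (7, []),
  (17, []),
  (0, [⟨[4, 0, 0, 0, 0, 0, 0, 0, 0, 0, 6, 0, 0, 0, 0], 1, 3, [0, 0, 0, 186, 0, 0, 0, 0, 44, 0, 0, 0, 0, 370], []⟩]),
  (7, []),
  (0, [⟨[634, 0, 0, 0, 0], 1, 3, [0, 0, 0, 195], []⟩, ⟨[550, 0, 0, 0, 0, 13, 0, 0, 0, 0], 1, 3, [0, 0, 0, 439, 0, 0, 0, 0, 89], []⟩]),
  (0, [⟨[22], 1, 1, [1], [-2, 0, 4, -2, 0, 6, 0, -1, 6, 0, -1, 0, 0, -1]⟩, ⟨[514], 1, 1, [1], [-8, -2, -4, 0, 0, 2, 6, 1, 0, 0, 0, -1]⟩, ⟨[341], 1, 1, [1], [0, 0, 8, 2, 0, 0, 0, 5, -6, 0, 0, 0, -1, 1]⟩, ⟨[501, 355, 77, 129], 1, 3, [162, 238, 0, 283], []⟩, ⟨[527, 60, 102, 302], 1, 3, [614, 15, 0, 548], []⟩, ⟨[439, 283, 159, 621], 1, 3, [588, 319, 0, 455], []⟩]),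
  (0, [⟨[573], 1, 1, [1], [2, 0, 0, 8, 0, -2, 0, 0, 5, 0, 0, 0, 0, -1]⟩, ⟨[360, 293], 1, 2, [584, 208], [2, -6, -6, 0, -8, 12, 0, 7, 0, -5, -2, 0, -1, 0, 1]⟩, ⟨[447, 1, 416, 97], 1, 3, [235, 549, 462, 403], []⟩, ⟨[447, 18, 416, 257], 1, 3, [95, 224, 203, 7], []⟩, ⟨[580, 202, 347, 74], 1, 3, [201, 344, 253], []⟩]),
  (11, []),
  (0, [⟨[131], 1, 1, [1], [-2, -2, -4, -2, 0, 6, 6, 1, 6, 0, -1, -1, 0, -1]⟩, ⟨[594, 127], 1, 2, [234, 130], [-2, -2, 14, 2, 0, 2, 6, -2, 5, 0, 0, -1, 0, -1]⟩, ⟨[437, 468, 373, 507], 1, 3, [392, 571, 329, 42], []⟩, ⟨[437, 528, 373, 19], 1, 3, [359, 226, 169, 351], []⟩, ⟨[467, 188, 470, 522], 1, 3, [491, 248, 0, 79], []⟩]),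
  (0, [⟨[139], 1, 1, [1], [2, -4, -4, 0, 6, -6, -6, 1, 0, -7, 1, 1, 0, 0, 1]⟩, ⟨[151, 622], 1, 2, [174, 330], [-8, 0, 2, 0, -10, 2, 0, 1, 0, 8, 0, 0, 0, 0, -1]⟩, ⟨[151, 293], 1, 2, [199, 372], [2, -4, -10, -6, -4, -2, -6, 1, 7, 1, 0, 1, 0, -1]⟩, ⟨[151, 645], 1, 2, [285, 229], [-6, 4, -6, -4, 2, -4, 6, 7, 1, 12, 1, -1, -1, 0, -2]⟩, ⟨[449, 398], 1, 2, [90, 387], [-2, 0, 2, 4, 8, 2, 0, 12, -1, 5, 0, 0, -2, 0, -1]⟩, ⟨[449, 122], 1, 2, [441, 90], [0, -4, 8, -4, -10, 4, -6, 5, 1, 8, -1, 1, -1, 0, -1]⟩, ⟨[151, 202], 1, 2, [506, 393], [-2, 8, -6, 4, -4, 6, -2, -11, -1, 1, -1, 0, 2]⟩, ⟨[151, 215], 1, 2, [582, 626], [2, 4, 6, -14, -4, -6, 6, -7, 2, 1, 1, -1, 1]⟩]),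
  (0, [⟨[4, 0, 0, 0, 0, 0, 0, 0, 0, 0, 6, 0, 0, 0, 0], 1, 3, [0, 0, 0, 534, 0, 0, 0, 0, 72, 0, 0, 0, 0, 631], []⟩]),
  (23, []),
  (11, []),
  (0, [⟨[351, 345, 585], 1, 3, [352, 34, 137], []⟩, ⟨[255, 129, 242, 589, 88, 430, 253, 402, 494, 195, 660, 88], 1, 3, [458, 653, 145, 644, 131, 524, 452, 485, 643, 490, 356, 119], []⟩]),
  (0, [⟨[168], 1, 1, [1], [2, 0, -4, -2, 6, -6, 0, 1, 6, -7, 1, 0, 0, -1, 1]⟩, ⟨[334, 398], 1, 2, [453, 127], [-4, -4, -8, 2, 6, -6, -6, -5, -13, -7, 1, 1, 1, 2, 1]⟩, ⟨[149, 376, 366, 45], 1, 3, [376, 54, 386, 56], []⟩, ⟨[582, 76, 210, 509], 1, 3, [628, 155, 429], []⟩, ⟨[149, 541, 366, 234], 1, 3, [605, 159, 667, 55], []⟩]),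
  (7, []),
  (0, [⟨[30], 1, 1, [1], [0, -2, 2, -4, 0, 0, 6, 5, 1, 0, 0, -1, -1]⟩, ⟨[323, 518], 1, 2, [296, 194], [-8, -4, -4, 4, -2, 2, -6, 1, -1, 6, 0, 1, 0, 0, -1]⟩, ⟨[170, 195, 492, 136], 1, 3, [414, 557, 206, 38], []⟩, ⟨[38, 320, 466, 653], 1, 3, [175, 575, 0, 628], []⟩, ⟨[170, 467, 492, 29], 1, 3, [169, 653, 217, 418], []⟩]),
  (13, []),
  (0, [⟨[43, 0, 0, 0, 0], 1, 3, [0, 0, 0, 294], []⟩, ⟨[602, 0, 0, 0, 0], 1, 3, [0, 0, 0, 21], []⟩, ⟨[52, 0, 0, 0, 0], 1, 3, [0, 0, 0, 571], []⟩]),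
  (17, [])] (by decide +kernel)

theorem a4 : CovA fl 30 1373170 m 2 ρ 700 (700 + 472) := covA _ _ _ _ _ _ _ _
  [(0, [⟨[481, 0, 0, 0, 0], 1, 3, [0, 0, 0, 134], []⟩, ⟨[51, 0, 0, 0, 0, 226, 0, 0, 0, 0], 1, 3, [0, 0, 0, 113, 0, 0, 0, 0, 280], []⟩]),
  (19, []),
  (7, []),
  (0, [⟨[649, 167, 9], 1, 3, [503, 60, 347], []⟩, ⟨[654, 382, 301, 64, 431, 112], 1, 3, [532, 141, 612, 283, 17, 661], []⟩, ⟨[654, 233, 101, 81, 658, 588], 1, 3, [563, 43, 546, 310, 408, 419], []⟩]),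
  (23, []),
  (0, [⟨[87], 1, 1, [1], [-6, 4, 0, 0, 0, -4, 6, 0, 0, 0, 1, -1]⟩, ⟨[340, 582], 1, 2, [525, 480], [-6, -2, -4, 10, 0, 0, 6, 1, -1, 0, 0, -1]⟩, ⟨[340, 50], 1, 2, [475, 700], [2, 4, -2, -4, 0, 8, 6, 13, 1, 0, -1, -1, -2]⟩, ⟨[301, 0, 0, 0, 0, 178, 0, 0, 0, 0], 1, 3, [138, 195, 72, 42, 455, 387, 491, 55, 460, 420], []⟩]),
  (7, []),
  (0, [⟨[658], 1, 1, [1], [-6, -2, 0, -4, 0, -4, 6, 0, 1, 0, 1, -1]⟩, ⟨[366], 1, 1, [1], [-2, 0, 0, -4, 6, 6, 0, 0, 1, -7, -1, 0, 0, 0, 1]⟩, ⟨[521], 1, 1, [1], [2, 0, -4, 8, 0, -6, 0, 1, 5, 0, 1, 0, 0, -1]⟩, ⟨[12, 632, 328, 69], 1, 3, [86, 326, 412], []⟩, ⟨[279, 257, 539, 361], 1, 3, [314, 499, 690], []⟩, ⟨[527, 368, 457, 206], 1, 3, [14, 307, 237], []⟩]),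
  (17, []),
  (0, [⟨[479], 1, 1, [1], [2, 0, 0, -2, 8, -6, 0, 0, 6, 5, 1, 0, 0, -1, -1]⟩, ⟨[633], 1, 1, [1], [4, 2, -6, 0, 0, 6, -6, 7, 0, 0, -1, 1, -1]⟩, ⟨[87], 1, 1, [1], [0, 0, 4, -10, 0, 0, 0, -1, 8, 0, 0, 0, 0, -1]⟩, ⟨[589, 116, 721, 254], 1, 3, [281, 527, 0, 315], []⟩, ⟨[258, 188, 262, 100], 1, 3, [390, 216, 0, 641], []⟩, ⟨[53, 464, 494, 646], 1, 3, [284, 315, 0, 510], []⟩]),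
  (11, []),
  (0, [⟨[562], 1, 1, [1], [-2, 0, 4, 6, 6, 6, 0, -1, -7, -7, -1, 0, 0, 1, 1]⟩, ⟨[311], 1, 1, [1], [-6, 6, 0, 0, 0, -4, 0, 0, 0, 0, 1]⟩, ⟨[549], 1, 1, [1], [6, 0, 4, 0, -4, 0, 0, -1, 0, 1]⟩, ⟨[88, 680], 1, 2, [187, 332], [-4, 0, -4, 0, 6, 8, 0, 1, 0, 11, -1, 0, 0, 0, -2]⟩, ⟨[88, 487], 1, 2, [53, 323], [4, -2, 4, 4, 6, 10, -12, -1, 6, -7, -2, 2, 0, -1, 1]⟩, ⟨[448, 545], 1, 2, [625, 235], [4, 6, 0, 6, 0, -12, 0, 7, -7, 0, 2, 0, -1, 1]⟩, ⟨[111, 489], 1, 2, [485, 63], [2, -2, 8, 0, 2, -6, -12, -13, 0, -6, 1, 2, 2, 0, 1]⟩, ⟨[111, 440], 1, 2, [289, 170], [4, -4, 4, 4, -2, 6, 8, -1, 6, 6, -1, -1, 0, -1, -1]⟩, ⟨[448, 371], 1, 2, [281, 118], [-2, -2, 6, 0, 6, 6, -12, 4, 0, -7, -1, 2, -1, 0, 1]⟩]),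
  (0, [⟨[339], 1, 1, [1], [2, 0, 2, -2, 0, -6, 0, -6, 6, 0, 1, 0, 1, -1]⟩, ⟨[368, 397], 1, 2, [701, 47], [-6, 2, -10, -6, 2, -4, -6, 8, 7, -6, 1, 1, -1, -1, 1]⟩, ⟨[545, 626, 289, 61], 1, 3, [91, 359, 241, 104], []⟩, ⟨[647, 243, 244, 404], 1, 3, [662, 414, 0, 1], []⟩, ⟨[545, 585, 289, 285], 1, 3, [582, 359, 143, 727], []⟩]),
  (7, []),
  (0, [⟨[4, 0, 0, 0, 0, 0, 0, 0, 0, 0, 6, 0, 0, 0, 0], 1, 3, [0, 0, 0, 653, 0, 0, 0, 0, 641, 0, 0, 0, 0, 396], []⟩]),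
  (0, [⟨[68, 272, 459], 1, 3, [673, 366, 83], []⟩, ⟨[89, 401, 634, 347, 361, 86, 475, 653, 406, 432, 250, 298], 1, 3, [343, 643, 506, 656, 280, 251, 436, 373, 726, 373, 491, 610], []⟩]),
  (0, [⟨[208, 0, 0, 0, 0], 1, 3, [0, 0, 0, 718], []⟩, ⟨[600, 0, 0, 0, 0, 559, 0, 0, 0, 0], 1, 3, [0, 0, 0, 193, 0, 0, 0, 0, 138], []⟩]),
  (7, []),
  (13, []),
  (0, [⟨[203, 529, 219], 1, 3, [337, 612, 381], []⟩, ⟨[317, 502, 638, 63, 111, 352], 1, 3, [252, 290, 569, 444, 6, 89], []⟩, ⟨[317, 763, 136, 235, 332, 198], 1, 3, [580, 365, 518, 643, 148, 693], []⟩]),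
  (0, [⟨[106], 1, 1, [1], [-2, 4, -4, 0, 0, 2, 6, 1, 0, 0, 0, -1]⟩, ⟨[440, 609], 1, 2, [250, 267], [-2, -4, -8, 4, -12, 6, -6, -5, -1, -4, -1, 1, 1, 0, 1]⟩, ⟨[423, 131, 385, 152], 1, 3, [547, 148, 92, 584], []⟩, ⟨[210, 177, 359, 667], 1, 3, [565, 421, 0, 580], []⟩, ⟨[423, 371, 385, 12], 1, 3, [318, 395, 260, 488], []⟩]),
  (19, []),
  (11, []),
  (0, [⟨[290, 614, 46], 1, 3, [69, 38, 508], []⟩, ⟨[711, 454, 462, 453, 706, 606, 726, 220, 181, 138, 418, 741], 1, 3, [63, 366, 744, 21, 561, 433, 540, 413, 110, 65, 600, 750], []⟩]),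
  (7, []),
  (13, []),
  (0, [⟨[643], 1, 1, [1], [2, 0, -4, 6, 6, -6, 0, 1, -7, -7, 1, 0, 0, 1, 1]⟩, ⟨[716, 282], 1, 2, [9, 373], [-6, -2, 6, 2, 6, 0, 6, -7, 5, -7, 0, -1, 1, -1, 1]⟩, ⟨[612, 747, 419, 63], 1, 3, [386, 157, 685, 45], []⟩, ⟨[612, 321, 419, 452], 1, 3, [64, 487, 543, 607], []⟩, ⟨[620, 410, 194, 154], 1, 3, [258, 201, 163], []⟩]),
  (17, []),
  (11, []),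
  (0, [⟨[32], 1, 1, [1], [0, -2, -2, -2, 0, 0, 6, -5, 6, 0, 0, -1, 1, -1]⟩, ⟨[594, 350], 1, 2, [57, 106], [0, -4, 8, -10, 12, 0, -6, 5, 8, 4, 0, 1, -1, -1, -1]⟩, ⟨[594, 427], 1, 2, [120, 259], [2, 2, 0, -6, 2, -2, -6, 0, -11, 12, 0, 1, 0, 2, -2]⟩, ⟨[716, 0, 0, 0, 0, 467, 0, 0, 0, 0], 1, 3, [714, 310, 503, 472, 600, 584, 472, 143, 59, 583], []⟩]),
  (0, [⟨[752, 0, 0, 0, 0], 1, 3, [0, 0, 0, 357], []⟩, ⟨[299, 0, 0, 0, 0], 1, 3, [0, 0, 0, 312], []⟩, ⟨[577, 0, 0, 0, 0], 1, 3, [0, 0, 0, 142], []⟩]),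
  (19, []),
  (0, [⟨[612, 0, 0, 0, 0], 1, 3, [0, 0, 0, 254], []⟩, ⟨[220, 0, 0, 0, 0, 215, 0, 0, 0, 0], 1, 3, [0, 0, 0, 322, 0, 0, 0, 0, 470], []⟩]),
  (0, [⟨[251, 39, 13], 1, 3, [428, 155, 753], []⟩, ⟨[541, 93, 692, 762, 115, 11, 379, 764, 406, 653, 615, 810], 1, 3, [699, 664, 711, 589, 553, 359, 135, 460, 448, 537, 133, 779], []⟩]),
  (0, [⟨[231], 1, 1, [1], [2, 2, -4, -6, 0, -6, -6, 1, 7, 0, 1, 1, 0, -1]⟩, ⟨[232, 300], 1, 2, [111, 512], [-4, -2, 10, 0, 0, 8, 2, -1, 0, 0, -1]⟩, ⟨[758, 620, 274, 658], 1, 3, [799, 107, 434, 495], []⟩, ⟨[758, 339, 274, 696], 1, 3, [563, 590, 139, 783], []⟩, ⟨[240, 44, 394, 596], 1, 3, [581, 515, 51], []⟩]),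
  (0, [⟨[714, 600, 220], 1, 3, [204, 148, 308], []⟩, ⟨[39, 539, 15, 587, 310, 434], 1, 3, [173, 395, 603, 142, 308, 54], []⟩, ⟨[39, 97, 785, 546, 112, 175], 1, 3, [786, 397, 275, 781, 765, 24], []⟩]),
  (7, []),
  (0, [⟨[509], 1, 1, [1], [0, -2, 4, -4, 0, 0, 6, -1, 1, 0, 0, -1]⟩, ⟨[522, 38], 1, 2, [639, 143], [2, -4, -4, 12, 0, 8, -6, -6, 4, 0, -1, 1, 1, -1]⟩, ⟨[522, 378], 1, 2, [367, 513], [6, 6, 4, -2, 6, 0, 0, 6, 6, 11, 0, 0, -1, -1, -2]⟩, ⟨[170, 735], 1, 2, [383, 443], [-10, 6, -8, -4, -2, 8, 0, 2, 1, 6, -1, 0, 0, 0, -1]⟩, ⟨[522, 834], 1, 2, [135, 54], [0, -4, -6, -14, -4, 0, -6, 7, 2, 1, 0, 1, -1]⟩, ⟨[522, 493], 1, 2, [786, 732], [-2, -6, -8, 4, -6, 6, 0, 2, -1, -11, -1, 0, 0, 0, 2]⟩, ⟨[522, 774], 1, 2, [181, 225], [-6, -6, 10,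 -2, 6, 0, -4, -1, 6, -7, 0, 1, 0, -1, 1]⟩, ⟨[170, 434], 1, 2, [606, 90], [-8, 6, -2, 2, 10, 2, 0, 6, 5, -8, 0, 0, -1, -1, 1]⟩]),
  (29, []),
  (7, []),
  (23, []),
  (0, [⟨[591, 196, 605], 1, 3, [698, 192, 532], []⟩, ⟨[560, 458, 353, 447, 845, 250, 398, 556, 748, 735, 569, 248], 1, 3, [112, 732, 292, 469, 133, 418, 246, 160, 324, 92, 761, 424], []⟩]),
  (0, [⟨[476], 1, 1, [1], [-6, 2, 0, 0, 0, -4, -6, 0, 0, 0, 1, 1]⟩, ⟨[808, 132], 1, 2, [430, 409], [2, 2, 0, -4, -10, 12, 12, 7, 1, 8, -2, -2, -1, 0, -1]⟩, ⟨[398, 703, 529, 381], 1, 3, [139, 660, 118], []⟩, ⟨[170, 773, 720, 237], 1, 3, [173, 49, 615, 233], []⟩, ⟨[170, 472, 720, 488], 1, 3, [133, 359, 429, 246], []⟩]),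
  (0, [⟨[769, 197, 106], 1, 3, [412, 280, 590], []⟩, ⟨[490, 552, 51, 738, 186, 703], 1, 3, [251, 448, 267, 459, 139, 233], []⟩, ⟨[490, 616, 409, 477, 338, 50], 1, 3, [690, 521, 678, 416, 530, 87], []⟩]),
  (0, [⟨[368], 1, 1, [1], [-2, 6, -4, 4, 0, 6, 0, 1, -1, 0, -1]⟩, ⟨[122, 230], 1, 2, [510, 746], [0, -4, 10, 2, -10, 0, -6, -1, 12, 8, 0, 1, 0, -2, -1]⟩, ⟨[689, 492, 67, 495], 1, 3, [237, 669, 0, 730], []⟩, ⟨[650, 53, 240, 400], 1, 3, [97, 857, 653, 188], []⟩, ⟨[650, 391, 240, 233], 1, 3, [469, 802, 498, 2], []⟩]),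
  (11, []),
  (13, []),
  (0, [⟨[261, 176, 790], 1, 3, [218, 749, 268], []⟩, ⟨[336, 96, 390, 234, 527, 544, 512, 369, 727, 421, 148, 87], 1, 3, [574, 241, 715, 109, 205, 14, 645, 47, 217, 579, 524, 243], []⟩]),
  (0, [⟨[815, 0, 0, 0, 0], 1, 3, [0, 0, 0, 331], []⟩, ⟨[534, 0, 0, 0, 0, 72, 0, 0, 0, 0], 1, 3, [0, 0, 0, 524, 0, 0, 0, 0, 859], []⟩]),
  (0, [⟨[265, 76, 433], 1, 3, [363, 864, 778], []⟩, ⟨[843, 378, 710, 738, 379, 774, 581, 646, 601, 427, 514, 450], 1, 3, [61, 810, 591, 585, 167, 16, 371, 779, 754, 42, 725, 252], []⟩]),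
  (0, [⟨[713], 1, 1, [1], [-2, 6, 6, 0, 0, 6, 0, -7, 0, 0, -1, 0, 1]⟩, ⟨[511, 496], 1, 2, [22, 751], [-8, -6, -2, 8, 2, 2, 0, -5, 5, -6, 0, 0, 1, -1, 1]⟩, ⟨[268, 131, 769, 174], 1, 3, [445, 822, 327], []⟩, ⟨[544, 816, 811, 68], 1, 3, [778, 107, 505, 696], []⟩, ⟨[544, 732, 811, 323], 1, 3, [11, 121, 231, 169], []⟩]),
  (7, []),
  (19, []),
  (29, []),
  (17, []),
  (0, [⟨[240, 326, 349], 1, 3, [37, 418, 231], []⟩, ⟨[650, 402, 421, 819, 707, 254, 535, 445, 255, 596, 318, 558], 1, 3, [456, 777, 719, 769, 252, 354, 175, 721, 298, 457, 784, 891], []⟩]),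
  (0, [⟨[596], 1, 1, [1], [-8, 0, 4, 0, -6, 2, 0, -1, 0, 7, 0, 0, 0, 0, -1]⟩, ⟨[307], 1, 1, [1], [-4, -2, -4, 0, -4, -6, 6, 1, 0, 1, 1, -1]⟩, ⟨[367], 1, 1, [1], [0, 0, 2, 2, 0, 0, 0, 5, 12, 0, 0, 0, -1, -2]⟩, ⟨[160], 1, 1, [1], [-2, 2, 4, 0, 0, 6, -6, -1, 0, 0, -1, 1]⟩, ⟨[392], 1, 1, [1], [-4, 0, -4, 8, 0, -6, 0, 1, 5, 0, 1, 0, 0, -1]⟩, ⟨[531, 866], 1, 2, [496, 184], [8, 2, 8, 6, 4, -6, -6, -2, 0, -1, 1, 1]⟩, ⟨[68, 174], 1, 2, [500, 633], [-2, -2, -6, 10, -2, 2, 6, 7, -8, 6, 0, -1, -1, 1, -1]⟩, ⟨[862, 573], 1, 2, [314, 832], [2, 0, -8, -8, 6, -2, 0, -5, -5, 11, 0, 0, 1, 1, -2]⟩, ⟨[381, 56], 1, 2, [122, 321], [4, 8, -4, 6, -10, 6, -6, 1, -7, 8, -1, 1, 0, 1, -1]⟩, ⟨[891, 153], 1, 2, [390, 763], [-2, 2, 0, 10, 0, 6, 12, 0, -1, 0, -1,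 -2]⟩]),
  (11, []),
  (7, []),
  (0, [⟨[860], 1, 1, [1], [0, 0, 6, -2, 0, 0, 0, 11, 6, 0, 0, 0, -2, -1]⟩, ⟨[877], 1, 1, [1], [4, 2, 4, -4, 0, 6, -6, -1, 1, 0, -1, 1]⟩, ⟨[358], 1, 1, [1], [4, 0, -6, 0, 4, 6, 0, 7, 0, -1, -1, 0, -1]⟩, ⟨[74, 448], 1, 2, [118, 500], [-2, 4, 0, -4, 2, -8, 6, 0, -6, 12, 1, -1, 0, 1, -2]⟩, ⟨[496, 470], 1, 2, [746, 208], [0, 4, 0, -2, -2, 0, -12, -7, -12, 6, 0, 2, 1, 2, -1]⟩, ⟨[496, 91], 1, 2, [843, 648], [4, 2, -4, -2, -2, 6, -6, 1, 13, 6, -1, 1, 0, -2, -1]⟩, ⟨[74, 513], 1, 2, [429, 568], [-4, 0, -8, 12, -4, -10, 0, 2, 4, 1, 2, 0, 0, -1]⟩, ⟨[195, 655], 1, 2, [430, 602], [-6, -8, 2, 6, 8, 0, 6, -6, -7, 5, 0, -1, 1, 1, -1]⟩, ⟨[195, 323], 1, 2, [84, 284], [2, -2, 0, -8, 0, -6, 6, 7, 2, 0, 1, -1, -1]⟩]),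
  (13, []),
  (0, [⟨[608], 1, 1, [1], [0, 4, 6, 4, 0, 0, 6, -7, -1, 0, 0, -1, 1]⟩, ⟨[78, 589], 1, 2, [477, 205], [2, -10, 2, 0, -6, -6, 8, 5, 0, 7, 1, -1, -1, 0, -1]⟩, ⟨[78, 661], 1, 2, [206, 57], [0, 6, -4, 4, 0, 18, 0, 1, -1, 0, -3]⟩, ⟨[920, 0, 0, 0, 0, 212, 0, 0, 0, 0], 1, 3, [249, 156, 579, 353, 313, 494, 420, 615, 538, 914], []⟩]),
  (7, []),
  (0, [⟨[576, 668, 833], 1, 3, [548, 308, 83], []⟩, ⟨[475, 731, 637, 619, 298, 566, 708, 801, 485, 156, 697, 104], 1, 3, [719, 19, 874, 62, 876, 138, 287, 736, 488, 821, 799, 477], []⟩]),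
  (0, [⟨[370, 0, 0, 0, 0], 1, 3, [0, 0, 0, 522], []⟩, ⟨[824, 0, 0, 0, 0, 577, 0, 0, 0, 0], 1, 3, [0, 0, 0, 379, 0, 0, 0, 0, 834], []⟩]),
  (23, []),
  (0, [⟨[779], 1, 1, [1], [-4, 2, -4, 0, 0, 8, -6, 1, 0, 0, -1, 1]⟩, ⟨[878, 428], 1, 2, [881, 788], [0, 6, 0, -4, 2, -4, 0, -7, 1, 12, 1, 0, 1, 0, -2]⟩, ⟨[443, 3, 186, 168], 1, 3, [167, 442, 829], []⟩, ⟨[921, 531, 741, 676], 1, 3, [396, 609, 355, 578], []⟩, ⟨[921, 241, 741, 790], 1, 3, [463, 681, 310, 342], []⟩]),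
  (13, []),
  (0, [⟨[298], 1, 1, [1], [-2, 2, -4, -6, 0, 6, -6, 1, 7, 0, -1, 1, 0, -1]⟩, ⟨[930, 533], 1, 2, [813, 317], [6, 8, 4, 8, -6, 4, -6, -1, -2, 7, -1, 1, 0, 0, -1]⟩, ⟨[824, 265, 778, 655], 1, 3, [281, 228, 0, 396], []⟩, ⟨[424, 432, 927, 857], 1, 3, [346, 730, 275, 828], []⟩, ⟨[424, 651, 927, 516], 1, 3, [943, 82, 941, 829], []⟩]),
  (7, []),
  (31, []),
  (0, [⟨[514, 350, 725], 1, 3, [107, 829, 566], []⟩, ⟨[523, 54, 740, 958, 16, 118, 659, 841, 829, 764, 73, 242], 1, 3, [28, 951, 806, 482, 862, 349, 702, 885, 648, 861, 78, 133], []⟩]),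
  (0, [⟨[18, 0, 0, 0, 0], 1, 3, [0, 0, 0, 26], []⟩, ⟨[755, 0, 0, 0, 0, 959, 0, 0, 0, 0], 1, 3, [0, 0, 0, 831, 0, 0, 0, 0, 155], []⟩]),
  (7, []),
  (0, [⟨[787], 1, 1, [1], [-6, 2, -4, 0, 6, 0, -6, 1, 0, -7, 0, 1, 0, 0, 1]⟩, ⟨[439, 911], 1, 2, [31, 297], [-8, -8, -6, 0, -4, 6, 2, 7, 0, 1, -1, 0, -1]⟩, ⟨[725, 888, 189, 729], 1, 3, [121, 292, 880, 904], []⟩, ⟨[725, 425, 189, 314], 1, 3, [395, 604, 195, 547], []⟩, ⟨[530, 460, 49, 190], 1, 3, [654, 929, 525], []⟩]),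
  (11, []),
  (0, [⟨[920], 1, 1, [1], [-2, 0, -4, 6, 0, 2, 0, 1, -7, 0, 0, 0, 0, 1]⟩, ⟨[765, 922], 1, 2, [325, 59], [2, 2, 10, -4, 8, -2, -6, 10, 1, 5, 0, 1, -2, 0, -1]⟩, ⟨[643, 282, 865, 204], 1, 3, [468, 750, 794, 921], []⟩, ⟨[597, 365, 946, 63], 1, 3, [627, 739, 0, 485], []⟩, ⟨[643, 237, 865, 840], 1, 3, [538, 589, 184, 650], []⟩]),
  (23, []),
  (0, [⟨[4, 0, 0, 0, 0, 0, 0, 0, 0, 0, 6, 0, 0, 0, 0], 1, 3, [0, 0, 0, 423, 0, 0, 0, 0, 863, 0, 0, 0, 0, 642], []⟩]),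
  (0, [⟨[443], 1, 1, [1], [2, -2, 0, 4, 4, -6, 6, 0, -1, -1, 1, -1]⟩, ⟨[345], 1, 1, [1], [2, 0, 0, 4, 0, 8, 0, 0, -1, 0, -1]⟩, ⟨[41], 1, 1, [1], [-8, 0, 4, -2, 0, 2, 0, -1, 6, 0, 0, 0, 0, -1]⟩, ⟨[734, 869, 313, 956], 1, 3, [165, 768, 232], []⟩, ⟨[322, 93, 160, 554], 1, 3, [167, 744, 566], []⟩, ⟨[635, 811, 615, 652], 1, 3, [546, 625, 466], []⟩]),
  (7, []),
  (17, []),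
  (19, []),
  (0, [⟨[630, 502, 610], 1, 3, [267, 53, 285], []⟩, ⟨[646, 286, 280, 218, 674, 950], 1, 3, [938, 672, 383, 158, 703, 565], []⟩, ⟨[646, 157, 83, 654, 275, 458], 1, 3, [483, 425, 655, 409, 258, 687], []⟩]),
  (0, [⟨[950], 1, 1, [1], [6, 6, 0, 4, 0, 0, 0, 0, -1]⟩, ⟨[457, 806], 1, 2, [519, 328], [4, -4, 2, 6, -2, 2, 12, 5, -7, 6, 0, -2, -1, 1, -1]⟩, ⟨[842, 744, 352, 898], 1, 3, [304, 527, 205, 707], []⟩, ⟨[842, 892, 352, 322], 1, 3, [852, 918, 61, 808], []⟩, ⟨[202, 849, 83, 63], 1, 3, [310, 992, 0, 611], []⟩]),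
  (0, [⟨[82], 1, 1, [1], [6, 6, 0, 0, -6, 0, 0, 0, 0, 7, 0, 0, 0, 0, -1]⟩, ⟨[409, 252], 1, 2, [533, 295], [4, 8, 4, 0, 0, 6, -6, -1, 7, 0, -1, 1, 0, -1]⟩, ⟨[409, 685], 1, 2, [573, 577], [-2, 6, -4, -4, 2, 2, 0, 1, -6, -13, 0, 0, 0, 1, 2]⟩, ⟨[72, 0, 0, 0, 0, 742, 0, 0, 0, 0], 1, 3, [747, 605, 357, 611, 310, 503, 225, 473, 105, 625], []⟩]),
  (0, [⟨[76, 0, 0, 0, 0], 1, 3, [0, 0, 0, 937], []⟩, ⟨[820, 0, 0, 0, 0], 1, 3, [0, 0, 0, 116], []⟩, ⟨[131, 0, 0, 0, 0], 1, 3, [0, 0, 0, 37], []⟩]),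
  (13, []),
  (0, [⟨[53, 308], 1, 2, [388, 359], [6, 6, 2, -4, 6, -18, 0, -6, 1, -7, 3, 0, 1, 0, 1]⟩, ⟨[957, 948], 1, 2, [970, 955], [-2, 0, -2, 10, -6, 2, 0, 6, 10, 7, 0, 0, -1, -2, -1]⟩, ⟨[589, 770], 1, 2, [980, 841], [0, -4, -6, 0, 12, 0, 8, 7, 0, 4, 0, -1, -1, 0, -1]⟩, ⟨[846, 894], 1, 2, [392, 382], [-6, 6, -8, -4, -6, 0, 4, 13, 1, 7, 0, -1, -2, 0, -1]⟩, ⟨[648, 173], 1, 2, [363, 556], [10, 0, 10, 2, 0, 6, 0, -1, 5, 0, -1, 0, 0, -1]⟩, ⟨[213, 0, 0, 0, 0], 1, 3, [0, 0, 0, 330], []⟩]),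
  (0, [⟨[361, 469, 936], 1, 3, [749, 427, 299], []⟩, ⟨[289, 772, 308, 781, 129, 438, 827, 317, 175, 255, 452, 97], 1, 3, [554, 911, 788, 914, 639, 512, 408, 361, 691, 505, 127, 988], []⟩]),
  (17, []),
  (0, [⟨[416, 857, 364], 1, 3, [674, 193, 850], []⟩, ⟨[457, 872, 559, 856, 780, 204], 1, 3, [146, 376, 696, 139, 557, 199], []⟩, ⟨[457, 302, 458, 15, 394, 471], 1, 3, [1016, 768, 48, 392, 344, 968], []⟩]),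
  (7, []),
  (0, [⟨[282], 1, 1, [1], [-2, -2, -6, -2, 0, 6, 6, 7, 6, 0, -1, -1, -1, -1]⟩, ⟨[200, 387], 1, 2, [346, 993], [-6, -2, 2, -8, -12, 0, 2, -6, -5, -4, 0, 0, 1, 1, 1]⟩, ⟨[200, 380], 1, 2, [796, 570], [10, -6, -2, -2, 0, -4, -4, 6, 6, 0, 0, 1, -1, -1]⟩, ⟨[499, 0, 0, 0, 0, 952, 0, 0, 0, 0], 1, 3, [222, 305, 576, 361, 123, 835, 202, 486, 775, 854], []⟩]),
  (0, [⟨[835], 1, 1, [1], [8, -4, 4, 0, 0, -2, -6, -1, 0, 0, 0, 1]⟩, ⟨[127], 1, 1, [1], [0, -2, 0, 0, 0, 0, 6, 7, 0, 0, 0, -1, -1]⟩, ⟨[952], 1, 1, [1], [-2, 0, -8, -4, 0, 6, 0, 2, 1, 0, -1]⟩, ⟨[102], 1, 1, [1], [-4, 4, -4, 0, 0, -6, 6, 1, 0, 0, 1, -1]⟩, ⟨[86], 1, 1, [1], [0, 0, -6, 2, 6, 0, 0, 7, -6, -7, 0, 0, -1, 1, 1]⟩, ⟨[1017, 0, 0, 0, 0], 1, 3, [0, 0, 0, 606], []⟩, ⟨[609,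 0, 0, 0, 0], 1, 3, [0, 0, 0, 969], []⟩]),
  (7, []),
  (0, [⟨[61, 244], 1, 2, [537, 787], [2, 6, 6, 4, 0, 8, 0, 11, -1, 0, -1, 0, -2]⟩, ⟨[776, 657], 1, 2, [369, 900], [-10, 6, 0, -2, 6, 8, 0, -11, 6, -7, -1, 0, 2, -1, 1]⟩, ⟨[698, 630], 1, 2, [885, 654], [4, 0, 0, -2, 0, 6, 18, 7, 6, 0, -1, -3, -1, -1]⟩, ⟨[960, 670], 1, 2, [848, 197], [-2, 2, 0, -6, -4, 2, 12, -7, 7, 1, 0, -2, 1, -1]⟩, ⟨[688, 982], 1, 2, [544, 645], [2, 2, 8, 0, 0, 8, 12, -13, 0, 0, -1, -2, 2]⟩, ⟨[874, 0, 0, 0, 0], 1, 3, [0, 0, 0, 103], []⟩]),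
  (0, [⟨[272, 601, 583], 1, 3, [762, 800, 1022], []⟩, ⟨[297, 184, 524, 188, 807, 446, 369, 217, 443, 148, 733, 480], 1, 3, [551, 688, 737, 230, 861, 925, 594, 27, 375, 76, 440, 1005], []⟩]),
  (11, []),
  (0, [⟨[382], 1, 1, [1], [2, -2, -4, 0, 0, 12, 6, 1, 0, 0, -2, -1]⟩, ⟨[931], 1, 1, [1], [0, -4, -4, -2, 6, 0, -6, 1, 6, -7, 0, 1, 0, -1, 1]⟩, ⟨[780], 1, 1, [1], [-2, 0, -2, -4, 0, 6, 0, 6, 1, 0, -1, 0, -1]⟩, ⟨[930, 658], 1, 2, [592, 856], [-10, -2, 6, 2, 0, -10, 6, 4, -6, 0, 2, -1, -1, 1]⟩, ⟨[198, 534], 1, 2, [844, 169], [2, 0, 0, -6, -2, -6, 0, 7, 7, -12, 1, 0, -1, -1, 2]⟩, ⟨[529, 399], 1, 2, [845, 545], [0, 2, 8, -8, 6, 0, -6, 16, -5, -7, 0, 1, -3, 1, 1]⟩, ⟨[529, 288], 1, 2, [585, 330], [-6, 8, -2, 6, -6, 0, -2, 13, -7, 7, 0, 0,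 -2, 1, -1]⟩, ⟨[198, 673], 1, 2, [744, 846], [4, 0, 2, -4, 2, -8, 0, -13, -6, 12, 1, 0, 2, 1, -2]⟩, ⟨[930, 700], 1, 2, [821, 636], [-4, -4, -14, 0, -10, 12, 12, 9, 0, 8, -2, -2, -1, 0, -1]⟩]),
  (29, []),
  (13, []),
  (23, []),
  (0, [⟨[1077, 374, 276], 1, 3, [390, 243, 1013], []⟩, ⟨[870, 1015, 14, 406, 360, 102, 14, 694, 896, 270, 627, 811], 1, 3, [574, 728, 833, 791, 234, 1078, 979, 477, 1043, 927, 1025, 17], []⟩]),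
  (0, [⟨[365], 1, 1, [1], [6, 0, 2, 4, 0, 0, 0, -6, -1, 0, 0, 0, 1]⟩, ⟨[1048], 1, 1, [1], [6, 6, -4, 0, 0, 0, 0, 1]⟩, ⟨[23], 1, 1, [1], [-6, -2, 4, 0, 6, 0, 6, -1, 0, -7, 0, -1, 0, 0, 1]⟩, ⟨[124], 1, 1, [1], [6, 0, -2, -4, -4, 0, 0, 6, 1, 1, 0, 0, -1]⟩, ⟨[622], 1, 1, [1], [-2, 0, 6, -2, 0, 6, 0, -7, 6, 0, -1, 0, 1, -1]⟩, ⟨[617, 0, 0, 0, 0, 563, 0, 0, 0, 0], 1, 3, [0, 0, 0, 50, 0, 0, 0, 0, 922], []⟩]),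
  (0, [⟨[228], 1, 1, [1], [0, 0, -8, 0, -4, 0, 0, -5, 0, 1, 0, 0, 1]⟩, ⟨[849], 1, 1, [1], [-2, -2, 4, -6, 0, 6, 6, -1, 7, 0, -1, -1, 0, -1]⟩, ⟨[682], 1, 1, [1], [-2, 0, 0, 2, 6, 6, 0, 0, -6, -7, -1, 0, 0, 1, 1]⟩, ⟨[223, 140, 480, 865], 1, 3, [618, 89, 0, 908], []⟩, ⟨[310, 814, 579, 244], 1, 3, [1056, 1017, 0, 646], []⟩, ⟨[796, 264, 494, 411], 1, 3, [127, 130, 0, 632], []⟩]),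
  (0, [⟨[689], 1, 1, [1], [0, 2, -4, 6, -4, 0, -6, 1, -7, 1, 0, 1, 0, 1]⟩, ⟨[1000, 1022], 1, 2, [624, 982], [-2, -12, -2, 0, -10, 6, -4, 13, 0, 8, -1, 1, -2, 0, -1]⟩, ⟨[464, 167, 151, 831], 1, 3, [405, 192, 818, 379], []⟩, ⟨[584, 945, 280, 408], 1, 3, [105, 625, 411], []⟩, ⟨[464, 526, 151, 341], 1, 3, [286, 121, 534, 794], []⟩]),
  (7, []),
  (0, [⟨[544], 1, 1, [1], [0, 6, -4, 6, 0, 0, 0, 1, -7, 0, 0, 0, 0, 1]⟩, ⟨[252, 526], 1, 2, [655, 73], [6, 8, -4, 2, 0, 4, -6, -6, 12, 0, -1, 1, 1, -2]⟩, ⟨[470, 733, 524, 1057], 1, 3, [112, 102, 81, 891], []⟩, ⟨[76, 284, 771, 559], 1, 3, [301, 254, 0, 793], []⟩, ⟨[470, 562, 524, 623], 1, 3, [550, 931, 446, 383], []⟩]),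
  (0, [⟨[594], 1, 1, [1], [0, 2, -6, 0, -4, 0, -6, 7, 0, 1, 0, 1, -1]⟩, ⟨[935, 511], 1, 2, [867, 537], [-2, -6, 0, -2, 4, -12, -4, 7, 6, -1, 2, 1, -1, -1]⟩, ⟨[935, 4], 1, 2, [972, 623], [2, 4, 4, 8, 4, -6, 6, 6, 5, 6, 1, -1, -1, -1, -1]⟩, ⟨[987, 0, 0, 0, 0, 715, 0, 0, 0, 0], 1, 3, [475, 654, 37, 979, 267, 612, 723, 1010, 548, 769], []⟩]),
  (11, []),
  (0, [⟨[647, 319, 715], 1, 3, [583, 1050, 461], []⟩, ⟨[732, 12, 423, 791, 667, 146, 960, 1041, 244, 124, 42, 402], 1, 3, [712, 974, 533, 892, 874, 432, 115, 593, 228, 188, 125, 549], []⟩]),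
  (19, []),
  (0, [⟨[194, 1107, 94], 1, 3, [947, 23, 895], []⟩, ⟨[602, 177, 186, 280, 588, 620, 416, 721, 521, 1004, 164, 1029], 1, 3, [940, 137, 734, 7, 438, 476, 359, 247, 915, 506, 454, 1097], []⟩]),
  (7, []),
  (0, [⟨[561, 900, 469], 1, 3, [430, 306, 513], []⟩, ⟨[270, 964, 553, 79, 954, 841], 1, 3, [81, 74, 848, 617, 251, 349], []⟩, ⟨[270, 402, 743, 343, 792, 948], 1, 3, [620, 100, 951, 513, 763, 227], []⟩]),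
  (11, []),
  (17, []),
  (7, []),
  (31, []),
  (0, [⟨[438, 0, 0, 0, 0], 1, 3, [0, 0, 0, 718], []⟩, ⟨[699, 0, 0, 0, 0, 719, 0, 0, 0, 0], 1, 3, [0, 0, 0, 709, 0, 0, 0, 0, 84], []⟩]),
  (0, [⟨[190, 378, 979], 1, 3, [555, 512, 235], []⟩, ⟨[534, 479, 1126, 301, 890, 999, 146, 532, 361, 1032, 477, 174], 1, 3, [590, 585, 72, 734, 788, 1016, 219, 658, 104, 875, 1122, 969], []⟩]),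
  (13, []),
  (19, []),
  (0, [⟨[518], 1, 1, [1], [-2, 0, 6, 0, -4, 2, 0, -7, 0, 1, 0, 0, 1]⟩, ⟨[967, 1001], 1, 2, [832, 240], [-6, 8, 8, 0, 0, 0, -6, 5, -7, 0, 0, 1, -1, 1]⟩, ⟨[1126, 540, 1093, 539], 1, 3, [1040, 1012, 866, 807], []⟩, ⟨[1081, 624, 329, 645], 1, 3, [263, 353, 0, 474], []⟩, ⟨[1126, 974, 1093, 786], 1, 3, [269, 563, 609, 229], []⟩]),
  (7, []),
  (0, [⟨[4, 0, 0, 0, 0, 0, 0, 0, 0, 0, 6, 0, 0, 0, 0], 1, 3, [0, 0, 0, 749, 0, 0, 0, 0, 994, 0, 0, 0, 0, 814], []⟩])] (by decide +kernel)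

theorem ra {F : Type*} [Field F] [NumberField F] {α : NumberField.RingOfIntegers F} (h : Gen α fl) :
    Range F 30 1373170 0 1172 :=
  have hs : splitOK fl m 2 ρ = true := by decide +kernel
  ((((a0.range h hs).trans (a1.range h hs)).trans (a2.range h hs)).trans (a3.range h hs)).trans (a4.range h hs)

end Pool.Agent.Lib.MP_ab8df0_nt.A.N1
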