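import Pool.Agent.Lib.MP_ab8df0_nt.A.N1.Pub

/-! The same in terms of a generator whose index has only bad primes. -/

namespace Pool.Agent.Lib.MP_ab8df0_nt.A.N1.G

open Pool.Agent.Lib.MP_ab8df0_nt.A

open NumberField IsDedekindDomain

variable {F : Type*} [Field F] [NumberField F] {α : 𝓞 F}

/-- Lower coefficients of the polynomial. -/
def fl : List ℤ := [-8, 0, 0, 0, 0, 12, 0, 0, 0, 0, 6, 0, 0, 0, 0]

instance : Fact (Irreducible (mq fl)) :=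
  ⟨irr_of_other (fl := N1.fb) (l := [0, 0, 0, 67, 0, 0, 0, 0, -19, 0, 0, 0, 0, 3]) (d := 17)
    (l' := [0, 0, 4, 0, 0, 0, 0, 4, 0, 0, 0, 0, 1]) (d' := 8) Fact.out (by decide +kernel)⟩

/-- The uniformizer at two is `ul / ud`. -/
def ul : List ℤ := [0, 0, 4, 0, 0, 0, 0, 4, 0, 0, 0, 0, 1]

/-- Denominator of the uniformizer. -/
def ud : ℤ := 8

/-- The generator is `vl / vd` in terms of the uniformizer. -/
def vl : List ℤ := [0, 0, 0, 67, 0, 0, 0, 0, -19, 0, 0, 0, 0, 3]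

/-- Denominator of the generator. -/
def vd : ℤ := 17

theorem unif (h : Gen α fl) : ∃ γ : 𝓞 F, ud * γ = ev α ul ∧ Gen γ N1.fb :=
  h.other (l' := vl) (d' := vd) (by decide +kernel)

/-- The generators. -/
def g : Fin 13 → List ℤ := ![[-1],
  [0, 0, 0, 0, 32, 0, 0, 0, 0, 12, 0, 0, 0, 0, 2],
  [2],
  [-16, 0, 0, 0, 32, 0, 0, 0, 0, 12, 0, 0, 0, 0, 2],
  [16, 0, 0, 40, 0, 0, 0, 0, 16, 0, 0, 0, 0, 2],
  [-4, 0, 12, 0, 0, 0, 0, 6, 0, 0, 0, 0, 1],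
  [31, 0, 0, 0, 0, 13, 0, 0, 0, 0, 2],
  [0, 0, 0, 0, 96, 0, 0, 0, 0, 36, 0, 0, 0, 0, 6],
  [32, 32, 0, 0, 0, 16, 16, 0, 0, 0, 2, 2],
  [8, 0, -68, 0, 0, 4, 0, -28, 0, 0, 2, 0, -5],
  [8, 0, -28, 0, 20, 4, 0, -8, 0, 10, 2, 0, -1, 0, 2],
  [0, 32, 32, 0, -20, 0, 16, 16, 0, -10, 0, 2, 2, 0, -2],
  [-16, -24, 0, 20, 0, 4, 0, 0, 10, 0, 2, 0, 0, 2]]

theorem SU (h : Gen α fl) {ξ : F} (h0 : ξ ≠ 0)
    (hξ : ∀ v : HeightOneSpectrum (𝓞 F), ((30 : ℕ) : 𝓞 F) ∉ v.asIdeal →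
      ∃ k : ℤ, v.valuation F ξ = WithZero.exp (2 * k)) :
    ∃ (e : Fin 13 → Bool) (u : F), ξ = (∏ i, if e i then ev (α : F) (g i) else 1) * u ^ 2 :=
  (h.other (l := [0, 0, 0, 0, 16, 0, 0, 0, 0, 6, 0, 0, 0, 0, 1]) (d := 8) (gl := N1.fl)
    (l' := [0, 0, 0, 0, 8, 0, 0, 0, 0, 5, 0, 0, 0, 0, -1]) (d' := 6) (by decide +kernel)).elim fun _ h1 =>
  su_transfer h.root h1.1 (c := ![1, 4, 1, 4, 4, 2, 1, 4, 2, 2, 2, 2, 2]) (s := [1]) (by decide +kernel) (N1.SU h1.2 h0 hξ)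

theorem re0 (h : Gen α fl) : ∃ φ : F →+* ℝ, ((877352846892282703070796090942 : ℤ) : ℝ) / ((10 ^ 30 : ℕ) : ℝ) < φ α ∧
    φ α < ((877352846892282703070796090943 : ℤ) : ℝ) / ((10 ^ 30 : ℕ) : ℝ) := h.real (by decide +kernel)

/-- The common denominator. -/
def den : ℤ := 2

/-- Numerator of a tower element. -/
def th : List ℤ := [2, 0, 0, 0, 0, 1]

/-- Numerator of a tower element. -/
def al : List ℤ := [0, 2]

theorem tw0 {K : Type*} [Field K] [CharZero K] {a : K} (h : a ^ fl.length + ev a fl = 0) :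
    (ev a th / den) ^ 3 = 2 := by
  have := ex_zero_div h (D := den) (ls := [th, al])
    (e := (.add (.pow (.v 0) 3) (.neg (.c 2)))) (by decide +kernel)
  simp only [List.map, Ex.evR, Ex.evR_pow, nth0] at this
  push_cast at this
  linear_combination this

theorem tw1 {K : Type*} [Field K] [CharZero K] {a : K} (h : a ^ fl.length + ev a fl = 0) :
    a ^ 5 = (2 * ((ev a th / den) - 1)) := by
  have := ex_zero_div h (D := den) (ls := [th, al])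
    (e := (.add (.pow (.v 1) 5) (.neg (.mul (.c 2) (.add (.v 0) (.neg (.c 1))))))) (by decide +kernel)
  simp only [List.map, Ex.evR, Ex.evR_pow, nth0, nth1] at this
  rw [show ev a al / den = a by simp [al, den]] at this
  push_cast at this
  linear_combination this

end Pool.Agent.Lib.MP_ab8df0_nt.A.N1.G
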